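import Pool.Agent.N309.PD.NonFree
import Pool.Agent.N309.LO.Level

set_option autoImplicit false
set_option linter.unusedSectionVars false

open scoped InnerProductSpace InnerProduct ENNReal
open scoped Matrix

/-! Components of the positive cone and the first Betti number. -/

namespace Pool.Agent.N309.PD

open Pool.Agent.W649.ZL Pool.Agent.N309.LO

universe u v w z

section
variable {G : Type u} [Group G] [LinearOrder G]

/-- neighbours in the Cayley graph which are both positive -/
def Adj {ι : Type*} (s : ι → G) (g h : G) : Prop :=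
  1 < g ∧ 1 < h ∧ ∃ j, h = g * s j ∨ g = h * s j

theorem word_of_path {ι : Type*} (s : ι → G) {g h : G} (hh : 1 < h)
    (p : Relation.ReflTransGen (Adj s) g h) :
    ∃ u : List (ι × Bool), g * ev s u = h ∧ ∀ M N, u = M ++ N → 1 < g * ev s M := by
  induction p using Relation.ReflTransGen.head_induction_on with
  | refl =>
    refine ⟨[], by rw [ev_nil, mul_one], ?_⟩
    intro M N h
    obtain ⟨rfl, rfl⟩ := List.append_eq_nil_iff.1 h.symm
    rwa [ev_nil, mul_one]
  | @head a c hab _ ih =>
    obtain ⟨u, hu1, hu2⟩ := ih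
    obtain ⟨ha, _, j, hj⟩ := hab
    have key : ∀ b : Bool, a * cond b (s j) (s j)⁻¹ = c →
        ∃ u : List (ι × Bool), a * ev s u = h ∧ ∀ M N, u = M ++ N → 1 < a * ev s M := by
      intro b hb
      refine ⟨(j, b) :: u, by rw [ev_cons, ← mul_assoc, hb, hu1], ?_⟩
      intro M N hMN
      cases M with
      | nil => rwa [ev_nil, mul_one]
      | cons y M =>
        rw [List.cons_append, List.cons.injEq] at hMN
        rw [← hMN.1, ev_cons, ← mul_assoc, hb]
        exact hu2 M N hMN.2
    rcases hj with hj | hj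
    · exact key true hj.symm
    · apply key false
      rw [hj]
      exact mul_inv_cancel_right _ _

/-- the relation of two generators in the same component of the positive cone -/
theorem cone_relation {ι : Type*} [DecidableEq ι] [Fintype ι] (s : ι → G) (hpos : ∀ j, 1 < s j)
    (χ : G →* ℂ) (a b : ι) (p : Relation.ReflTransGen (Adj s) (s a) (s b)) :
    ∃ c : ι → MonoidAlgebra ℂ G,
      ∑ x, c x * (MonoidAlgebra.single (s x) 1 - MonoidAlgebra.single 1 (χ (s x))) = 0 ∧
      (∀ x k, (c x).coeff k ≠ 0 → 1 ≤ k) ∧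
      ∀ x, (c x).coeff 1 = (if a = x then χ (s a)⁻¹ else 0) - (if b = x then χ (s b)⁻¹ else 0) := by
  obtain ⟨u, hu1, hu2⟩ := word_of_path s (hpos b) p
  set r : List (ι × Bool) := (a, true) :: (u ++ [(b, false)]) with hr
  have hb1 : ev s [(b, false)] = (s b)⁻¹ := by
    rw [ev_cons, ev_nil, mul_one]
    rfl
  have hr1 : ev s r = 1 := by
    rw [hr, ev_cons, ev_append, hb1, ← mul_assoc]
    change s a * ev s u * (s b)⁻¹ = 1
    rw [hu1, mul_inv_cancel]
  -- all prefixes are at least one
  have hpre : ∀ M N, r = M ++ N → 1 ≤ ev s M := by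
    intro M N h
    cases M with
    | nil => exact le_refl _
    | cons y M =>
      rw [hr, List.cons_append, List.cons.injEq] at h
      rcases List.eq_nil_or_concat N with hN | ⟨N', z, hN⟩
      · subst hN
        rw [List.append_nil] at h
        rw [← h.1, ← h.2]
        exact hr1.ge
      · rw [hN] at h
        have h2 : u ++ [(b, false)] = (M ++ N') ++ [z] := by
          rw [h.2]
          simp
        have h3 := (List.append_inj' h2 rfl).1
        rw [← h.1, ev_cons]
        exact (hu2 M N' h3).le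
  refine ⟨fun x => fox s χ x r, ?_, ?_, ?_⟩
  · rw [fox_sum, hr1, map_one, sub_self]
  · intro x k hk
    obtain ⟨M, N, h⟩ := fox_supp s χ x r k hk
    rcases h with ⟨h1, h2⟩ | ⟨h1, h2⟩
    · rw [h2]
      exact hpre M _ h1
    · rw [h2]
      apply hpre (M ++ [(x, false)]) N
      rw [h1]
      simp
  · intro x
    have h0 : (fox s χ x u).coeff ((s a)⁻¹ * 1) = 0 := by
      by_contra hne
      rw [mul_one] at hne
      obtain ⟨M, N, h⟩ := fox_supp s χ x u _ hne
      rcases h with ⟨h1, h2⟩ | ⟨h1, h2⟩
      · have h3 := hu2 M _ h1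
        rw [← h2, mul_inv_cancel] at h3
        exact lt_irrefl _ h3
      · have h3 := hu2 (M ++ [(x, false)]) N (by rw [h1]; simp)
        rw [← h2, mul_inv_cancel] at h3
        exact lt_irrefl _ h3
    have hev : ev s u * (s b)⁻¹ = (s a)⁻¹ := by
      rw [← hu1, mul_inv_rev, mul_inv_cancel_left]
    change (fox s χ x ((a, true) :: (u ++ [(b, false)]))).coeff 1 = _
    rw [fox, MonoidAlgebra.coeff_add, Finsupp.add_apply, single_mul_coeff]
    have e1 : (cond (a, true).2 (s (a, true).1) (s (a, true).1)⁻¹)⁻¹ * 1 = (s a)⁻¹ * 1 := rfl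
    rw [e1, fox_append, MonoidAlgebra.coeff_add, Finsupp.add_apply,
      MonoidAlgebra.coeff_smul_apply, h0, smul_zero, add_zero, single_mul_coeff, ev_append, hb1,
      hev]
    have e2 : fox s χ x [(b, false)] = if b = x then
        MonoidAlgebra.single (s x)⁻¹ (-(χ (s x)⁻¹)) else 0 := by
      rw [fox, fox, mul_zero, zero_add, ev_nil, map_one, mul_one]
      rfl
    rw [e2]
    have e3 : (ev s u)⁻¹ * ((s a)⁻¹ * 1) = (s b)⁻¹ := by
      rw [mul_one, ← hu1, mul_inv_rev]
    rw [e3]
    by_cases h1 : a = x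
    · by_cases h2 : b = x
      · subst h1
        subst h2
        rw [if_pos rfl, if_pos rfl, if_pos rfl]
        simp only [cond_true, MonoidAlgebra.coeff_single, Finsupp.single_eq_same]
        ring
      · rw [if_pos h1, if_neg h2, if_neg h2]
        subst h1
        simp only [cond_true, MonoidAlgebra.coeff_single, Finsupp.single_eq_same,
          MonoidAlgebra.coeff_zero, Finsupp.zero_apply, if_true]
        ring
    · by_cases h2 : b = x
      · rw [if_neg h1, if_pos h2, if_neg h1, if_pos h2]
        subst h2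
        rw [MonoidAlgebra.coeff_single, Finsupp.single_eq_same, MonoidAlgebra.coeff_zero,
          Finsupp.zero_apply]
        ring
      · rw [if_neg h1, if_neg h2, if_neg h1, if_neg h2]
        simp only [MonoidAlgebra.coeff_zero, Finsupp.zero_apply]
        ring

end

section lift
variable {G : Type u} [Group G] {J : Type v} [Fintype J] [DecidableEq J]
  {L : Type w} [Fintype L] [DecidableEq L] {M : Type z} [Fintype M] [DecidableEq M]

/-- lifting generators of the kernel of the augmentation -/
theorem exists_lift (A : Matrix L J (MonoidAlgebra ℂ G)) (B : Matrix M L (MonoidAlgebra ℂ G))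
    (φ : (J → MonoidAlgebra ℂ G) →ₗ[ℂ] ℂ) (χ : G →* ℂ)
    (hχ : ∀ (g : G) x, φ (gsm g x) = χ g * φ x)
    (hA : ∀ x, (∃ y, y ᵥ* A = x) ↔ φ x = 0)
    (hB : ∀ x, x ᵥ* A = 0 → ∃ y, y ᵥ* B = x)
    {ι : Type*} [Fintype ι] [DecidableEq ι] (s : ι → G)
    (hs : Subgroup.closure (Set.range s) = ⊤) (j0 : J) (hj0 : φ (Pi.single j0 1) ≠ 0) :
    ∃ XY : Matrix (ι ⊕ {j : J // j ≠ j0}) L (MonoidAlgebra ℂ G),
      (∀ c : ι → MonoidAlgebra ℂ G,
        ∑ x, c x * (MonoidAlgebra.single (s x) 1 - MonoidAlgebra.single 1 (χ (s x))) = 0 →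
        ∀ F, opM B F = 0 →
          pr ((fun k : ι ⊕ {j : J // j ≠ j0} => Sum.elim c (fun _ => 0) k) ᵥ* XY) F = 0) ∧
      ∀ F, opM B F = 0 → opM XY F = 0 → F = 0 := by
  classical
  set n : J → ℂ := fun j => φ (Pi.single j 1) with hn
  -- generators
  set U : ι → J → MonoidAlgebra ℂ G := fun i => Pi.single j0
    (MonoidAlgebra.single (s i) 1 - MonoidAlgebra.single 1 (χ (s i))) with hU
  set V : {j : J // j ≠ j0} → J → MonoidAlgebra ℂ G := fun j => Pi.single j.1 1
    - Pi.single j0 (MonoidAlgebra.single 1 (n j.1 / n j0)) with hV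
  have hUφ : ∀ i, φ (U i) = 0 := by
    intro i
    rw [hU]
    change φ (Pi.single j0 _) = 0
    rw [phi_single χ hχ, map_sub, chi_single, chi_single, map_one, one_mul, mul_one, sub_self,
        zero_mul]
  have hVφ : ∀ j, φ (V j) = 0 := by
    intro j
    rw [hV]
    change φ (Pi.single j.1 1 - Pi.single j0 _) = 0
    rw [map_sub, phi_single χ hχ j0, chi_single, map_one, mul_one]
    change n j.1 - n j.1 / n j0 * n j0 = 0
    rw [div_mul_cancel₀ _ hj0, sub_self]
  choose X hX using fun i => (hA (U i)).2 (hUφ i)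
  choose Y hY using fun j => (hA (V j)).2 (hVφ j)
  set XY : Matrix (ι ⊕ {j : J // j ≠ j0}) L (MonoidAlgebra ℂ G) := fun k => Sum.elim X Y k with hXY
  have hXYA : ∀ p : ι ⊕ {j : J // j ≠ j0} → MonoidAlgebra ℂ G,
      (p ᵥ* XY) ᵥ* A = ∑ i, (fun l => p (Sum.inl i) * U i l) + ∑ j, (fun l => p (Sum.inr j) * V j l) := by
    intro p
    rw [Matrix.vecMul_vecMul]
    funext l
    change ∑ k, p k * (XY * A) k l = _
    rw [Fintype.sum_sum_type, Pi.add_apply, Finset.sum_apply, Finset.sum_apply]
    congr 1
    · refine Finset.sum_congr rfl fun i _ => ?_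
      congr 1
      exact congrFun (hX i) l
    · refine Finset.sum_congr rfl fun j _ => ?_
      congr 1
      exact congrFun (hY j) l
  have hrel : ∀ c : ι → MonoidAlgebra ℂ G,
      ∑ x, c x * (MonoidAlgebra.single (s x) 1 - MonoidAlgebra.single 1 (χ (s x))) = 0 →
      ∀ F, opM B F = 0 →
        pr ((fun k : ι ⊕ {j : J // j ≠ j0} => Sum.elim c (fun _ => 0) k) ᵥ* XY) F = 0 := by
    intro c hc F hF
    have h1 : ((fun k : ι ⊕ {j : J // j ≠ j0} => Sum.elim c (fun _ => 0) k) ᵥ* XY) ᵥ* A = 0 := by
      rw [hXYA]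
      have e1 : ∑ j : {j : J // j ≠ j0}, (fun l => (Sum.elim c (fun _ => 0)
          (Sum.inr j : ι ⊕ {j : J // j ≠ j0}) : MonoidAlgebra ℂ G) * V j l) = 0 := by
        apply Finset.sum_eq_zero
        intro j _
        funext l
        change (0 : MonoidAlgebra ℂ G) * _ = 0
        rw [zero_mul]
      rw [e1, add_zero]
      funext l
      rw [Finset.sum_apply]
      change ∑ i, c i * (Pi.single j0 (MonoidAlgebra.single (s i) 1
        - MonoidAlgebra.single 1 (χ (s i))) : J → MonoidAlgebra ℂ G) l = 0
      by_cases h : l = j0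
      · subst h
        simp only [Pi.single_eq_same]
        exact hc
      · apply Finset.sum_eq_zero
        intro i _
        rw [Pi.single_eq_of_ne h, mul_zero]
    obtain ⟨y, hy⟩ := hB _ h1
    rw [← hy, ← pr_opM, hF, pr_zero_right]
  -- the map is injective on the kernel of `B`
  have hinj : ∀ F, opM B F = 0 → opM XY F = 0 → F = 0 := by
    intro F hF1 hF2
    have key : ∀ z : L → MonoidAlgebra ℂ G, pr z F = 0 := by
      intro z
      have h1 : φ (z ᵥ* A) = 0 := (hA _).1 ⟨z, rfl⟩
      set x := z ᵥ* A with hx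
      -- the remainder
      set r : MonoidAlgebra ℂ G := x j0 + ∑ j : {j : J // j ≠ j0},
        x j.1 * MonoidAlgebra.single 1 (n j.1 / n j0) with hr
      have h2 : chi χ r = 0 := by
        rw [phi_eq χ hχ x, ← Finset.add_sum_erase _ _ (Finset.mem_univ j0)] at h1
        have h3 : chi χ r * n j0 = 0 := by
          rw [hr, map_add, map_sum, add_mul, Finset.sum_mul]
          have h4 : ∀ j : {j : J // j ≠ j0}, chi χ (x j.1 * MonoidAlgebra.single 1 (n j.1 / n j0))
              * n j0 = chi χ (x j.1) * n j.1 := by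
            intro j
            rw [map_mul, chi_single, map_one, mul_one, mul_assoc, div_mul_cancel₀ _ hj0]
          rw [Finset.sum_congr rfl fun j _ => h4 j]
          rw [← h1]
          congr 1
          symm
          apply Finset.sum_subtype
          intro j
          simp
        exact (mul_eq_zero.1 h3).resolve_right hj0
      obtain ⟨d, hd⟩ := mem_ideal s hs χ r h2
      set p : ι ⊕ {j : J // j ≠ j0} → MonoidAlgebra ℂ G := Sum.elim d (fun j => x j.1) with hp
      have h5 : (p ᵥ* XY) ᵥ* A = x := by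
        rw [hXYA]
        funext l
        rw [Pi.add_apply, Finset.sum_apply, Finset.sum_apply]
        change ∑ i, d i * (Pi.single j0 (MonoidAlgebra.single (s i) 1
          - MonoidAlgebra.single 1 (χ (s i))) : J → MonoidAlgebra ℂ G) l
          + ∑ j : {j : J // j ≠ j0}, x j.1 * ((Pi.single j.1 1 : J → MonoidAlgebra ℂ G) l
            - (Pi.single j0 (MonoidAlgebra.single 1 (n j.1 / n j0)) : J → MonoidAlgebra ℂ G) l)
          = x l
        by_cases h : l = j0
        · subst h
          simp only [Pi.single_eq_same]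
          rw [hd]
          have h6 : ∀ j : {j : J // j ≠ l}, x j.1 * ((Pi.single j.1 1 : J → MonoidAlgebra ℂ G) l
              - MonoidAlgebra.single 1 (n j.1 / n l))
              = - (x j.1 * MonoidAlgebra.single 1 (n j.1 / n l)) := by
            intro j
            rw [Pi.single_eq_of_ne (fun h => j.2 h.symm), zero_sub, mul_neg]
          rw [Finset.sum_congr rfl fun j _ => h6 j, Finset.sum_neg_distrib, hr]
          abel
        · have h7 : ∑ i, d i * (Pi.single j0 (MonoidAlgebra.single (s i) 1
              - MonoidAlgebra.single 1 (χ (s i))) : J → MonoidAlgebra ℂ G) l = 0 := by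
            apply Finset.sum_eq_zero
            intro i _
            rw [Pi.single_eq_of_ne h, mul_zero]
          rw [h7, zero_add, Finset.sum_eq_single (⟨l, h⟩ : {j : J // j ≠ j0})]
          · rw [Pi.single_eq_same, Pi.single_eq_of_ne h, sub_zero, mul_one]
          · intro j _ hj
            have h8 : l ≠ j.1 := fun h' => hj (Subtype.ext h'.symm)
            rw [Pi.single_eq_of_ne h8, Pi.single_eq_of_ne h, sub_zero, mul_zero]
          · intro h'
            exact absurd (Finset.mem_univ _) h'
      have h9 : (z + (-(p ᵥ* XY))) ᵥ* A = 0 := by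
        rw [Matrix.add_vecMul, Matrix.neg_vecMul, h5, hx, add_neg_cancel]
      obtain ⟨y, hy⟩ := hB _ h9
      have h10 : z = y ᵥ* B + p ᵥ* XY := by
        rw [hy]
        abel
      rw [h10, pr_add_left, ← pr_opM, ← pr_opM, hF1, hF2, pr_zero_right, pr_zero_right, add_zero]
    apply ext_cmp
    intro l
    have h := key (Pi.single l 1)
    rw [pr_single, map_one] at h
    rw [map_zero]
    exact h
  exact ⟨XY, hrel, hinj⟩

end lift

section main
variable {G : Type u} [Group G] [LinearOrder G] {J : Type v} [Fintype J] [DecidableEq J]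
  {L : Type w} [Fintype L] [DecidableEq L] {M : Type z} [Fintype M] [DecidableEq M]

/-- the terms at the identity -/
noncomputable def topM {G : Type u} [Group G] {J : Type v} {L : Type w}
    (D : Matrix L J (MonoidAlgebra ℂ G)) : Matrix L J (MonoidAlgebra ℂ G) :=
  fun l j => MonoidAlgebra.single (1 : G) ((D l j).coeff 1)

/-- the level inequality for matrices with positive terms -/
theorem pos_le (hinv : ∀ g a b : G, a ≤ b → g * a ≤ g * b) (D : Matrix L J (MonoidAlgebra ℂ G))
    (hD : ∀ l j k, (D l j).coeff k ≠ 0 → 1 ≤ k) :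
    vd (LinearMap.ker (opM D : EE G J →ₗ[ℂ] EE G L))
      ≤ vd (LinearMap.ker (opM (topM D) : EE G J →ₗ[ℂ] EE G L)) := by
  classical
  have hX : OrdInv G G := fun g a b h => hinv g a b h
  apply level_le hX (fun _ => 1) (fun _ => 1) _ _ (opM_eqv _) (opM_eqv _)
  · intro j t i hne
    rw [opM_dl, inv_one, mul_one] at hne
    rw [smul_eq_mul, mul_one]
    exact hD _ _ _ hne
  · intro j t i he
    rw [smul_eq_mul, mul_one] at he
    rw [opM_dl, opM_dl, inv_one, mul_one, ← he]
    change (MonoidAlgebra.single (1 : G) ((D i j).coeff 1)).coeff 1 = _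
    rw [MonoidAlgebra.coeff_single, Finsupp.single_eq_same]
  · intro j t i he
    rw [smul_eq_mul, mul_one] at he
    rw [opM_dl, inv_one, mul_one]
    change (MonoidAlgebra.single (1 : G) ((D i j).coeff 1)).coeff t = _
    rw [MonoidAlgebra.coeff_single, Finsupp.single_apply, if_neg he]

/-- degree one, by the components of the positive cone -/
theorem ker_one_cone (hinv : ∀ g a b : G, a ≤ b → g * a ≤ g * b)
    (A : Matrix L J (MonoidAlgebra ℂ G)) (B : Matrix M L (MonoidAlgebra ℂ G))
    (φ : (J → MonoidAlgebra ℂ G) →ₗ[ℂ] ℂ) (hφ : Aug φ)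
    (hA : ∀ x, (∃ y, y ᵥ* A = x) ↔ φ x = 0)
    (hB : ∀ x, x ᵥ* A = 0 → ∃ y, y ᵥ* B = x)
    {ι : Type*} [Fintype ι] [DecidableEq ι] (s : ι → G) (hpos : ∀ j, 1 < s j)
    (hs : Subgroup.closure (Set.range s) = ⊤) (T : Finset ι)
    (hT : ∀ a, ∃ t ∈ T, Relation.ReflTransGen (Adj s) (s a) (s t)) :
    vd (LinearMap.ker (opM B : EE G L →ₗ[ℂ] EE G M))
      ≤ (Fintype.card J : ℝ) + T.card - 1 := by
  classical
  obtain ⟨χ, hχ⟩ := hφ.exists_char
  choose t htT htp using hT
  choose c hc1 hc2 hc3 using fun a => cone_relation s hpos χ a (t a) (htp a)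
  -- a coordinate on which the functional is nonzero
  obtain ⟨j0, hj0⟩ : ∃ j, φ (Pi.single j 1) ≠ 0 := by
    by_contra hcon
    push Not at hcon
    apply hφ.ne
    apply LinearMap.ext
    intro x
    rw [phi_eq χ hχ x]
    apply Finset.sum_eq_zero
    intro j _
    rw [hcon, mul_zero]
  obtain ⟨XY, hXY1, hXY2⟩ := exists_lift A B φ χ hχ hA hB s hs j0 hj0
  set R : Matrix ι (ι ⊕ {j : J // j ≠ j0}) (MonoidAlgebra ℂ G) :=
    fun a k => Sum.elim (c a) (fun _ => 0) k with hR
  have hRB : ∀ F, opM B F = 0 → opM R (opM XY F) = 0 := by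
    intro F hF
    rw [opM_eq_zero]
    intro a
    rw [pr_opM]
    exact hXY1 (c a) (hc1 a) F hF
  have h1 := rank_nullity (opM XY) (opM_eqv XY) (inv_ker (opM B) (opM_eqv B))
    (ContinuousLinearMap.isClosed_ker (opM B))
  have h2 : LinearMap.ker (opM B : EE G L →ₗ[ℂ] EE G M)
      ⊓ LinearMap.ker (opM XY : EE G L →ₗ[ℂ] EE G (ι ⊕ {j : J // j ≠ j0})) = ⊥ := by
    rw [eq_bot_iff]
    rintro F ⟨hF1, hF2⟩
    rw [Submodule.mem_bot]
    exact hXY2 F hF1 hF2
  rw [h2, vd_bot, zero_add] at h1
  rw [h1]
  have h3 := pos_le hinv R (by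
    intro a k g hg
    rcases k with x | j
    · exact hc2 a x g hg
    · exact absurd rfl hg)
  set S : Finset (ι ⊕ {j : J // j ≠ j0}) := (Finset.univ.filter (fun a => a ∉ T)).map
    Function.Embedding.inl with hS
  have h4 := vd_ker_le (opM (topM R)) (opM_eqv _) S (by
    intro F hF hF2
    have h5 : ∀ k, k ∉ S → cmp k F = 0 := by
      intro k hk
      apply ext_unit
      intro x
      rw [cmp_apply, hF2 (x, k) hk]
      rfl
    have h6 : ∀ a ∈ T, cmp (Sum.inl a) F = 0 := by
      intro a ha
      apply h5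
      rw [hS, Finset.mem_map]
      rintro ⟨a', ha', he⟩
      have he' : a' = a := Sum.inl_injective he
      subst he'
      exact (Finset.mem_filter.1 ha').2 ha
    have h7 : ∀ a, a ∉ T → cmp (Sum.inl a) F = 0 := by
      intro a ha
      have hta : a ≠ t a := fun h => ha (h ▸ htT a)
      have h8 := (opM_eq_zero _ F).1 hF a
      unfold pr at h8
      rw [Fintype.sum_sum_type] at h8
      have h9 : ∑ j : {j : J // j ≠ j0}, Lam (topM R a (Sum.inr j)) (cmp (Sum.inr j) F) = 0 := by
        apply Finset.sum_eq_zero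
        intro j _
        change Lam (MonoidAlgebra.single (1 : G) 0) _ = 0
        rw [MonoidAlgebra.single_zero, map_zero]
        rfl
      rw [h9, add_zero, Finset.sum_eq_single a] at h8
      · have e1 : (R a (Sum.inl a)).coeff 1 = χ (s a)⁻¹ := by
          change (c a a).coeff 1 = _
          rw [hc3, if_pos rfl, if_neg (Ne.symm hta), sub_zero]
        change Lam (MonoidAlgebra.single (1 : G) ((R a (Sum.inl a)).coeff 1)) _ = 0 at h8
        rw [e1] at h8
        have e2 : (MonoidAlgebra.single (1 : G) (χ (s a)⁻¹) : MonoidAlgebra ℂ G)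
            = χ (s a)⁻¹ • (1 : MonoidAlgebra ℂ G) := by
          rw [MonoidAlgebra.one_def, MonoidAlgebra.smul_single, smul_eq_mul, mul_one]
        rw [e2, map_smul, map_one] at h8
        have h10 : χ (s a)⁻¹ • cmp (Sum.inl a) F = 0 := h8
        exact (smul_eq_zero.1 h10).resolve_left (chi_ne χ _)
      · intro x _ hx
        have e1 : (R a (Sum.inl x)).coeff 1 = (if a = x then χ (s a)⁻¹ else 0)
            - (if t a = x then χ (s (t a))⁻¹ else 0) := hc3 a x
        by_cases hx2 : t a = x
        · rw [← hx2, h6 _ (htT a), map_zero]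
        · rw [if_neg (Ne.symm hx), if_neg hx2, sub_zero] at e1
          change Lam (MonoidAlgebra.single (1 : G) ((R a (Sum.inl x)).coeff 1)) _ = 0
          rw [e1, MonoidAlgebra.single_zero, map_zero]
          rfl
      · intro h'
        exact absurd (Finset.mem_univ _) h'
    apply ext_cmp
    intro k
    rw [map_zero]
    rcases k with a | j
    · by_cases ha : a ∈ T
      · exact h6 a ha
      · exact h7 a ha
    · apply h5
      rw [hS, Finset.mem_map]
      rintro ⟨a', _, he⟩
      exact absurd he Sum.inl_ne_inr)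
  have h11 : (Fintype.card (ι ⊕ {j : J // j ≠ j0}) : ℝ) - S.card
      = (Fintype.card J : ℝ) + T.card - 1 := by
    have h8 : Fintype.card {j : J // j ≠ j0} + 1 = Fintype.card J := by
      have := Fintype.card_pos_iff.2 ⟨j0⟩
      rw [Fintype.card_subtype_compl, Fintype.card_subtype_eq]
      omega
    have h9 : S.card + T.card = Fintype.card ι := by
      rw [hS, Finset.card_map]
      have := Finset.card_filter_add_card_filter_not (s := (Finset.univ : Finset ι)) (fun a => a ∈ T)
      have e : (Finset.univ : Finset ι).filter (fun a => a ∈ T) = T := by ext a; simp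
      rw [e, Finset.card_univ] at this
      omega
    rw [Fintype.card_sum, Nat.cast_add, ← h8, ← h9]
    push_cast
    ring
  rw [← h11]
  refine (vd_mono ?_).trans (h3.trans h4)
  rintro _ ⟨F, hF, rfl⟩
  exact hRB F hF

end main

end Pool.Agent.N309.PD
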