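import Mathlib

set_option autoImplicit false

/-! Fox calculus: two elements which generate a group that is not free on them satisfy a
nontrivial relation in the augmentation ideal. -/

namespace Pool.Agent.N309.PD

universe u

variable {G : Type u} [Group G]

/-- the value of a word -/
def ev {ι : Type*} (s : ι → G) (L : List (ι × Bool)) : G :=
  (L.map fun x => cond x.2 (s x.1) (s x.1)⁻¹).prod

theorem ev_nil {ι : Type*} (s : ι → G) : ev s [] = 1 := rfl

theorem ev_cons {ι : Type*} (s : ι → G) (y : ι × Bool) (L : List (ι × Bool)) :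
    ev s (y :: L) = cond y.2 (s y.1) (s y.1)⁻¹ * ev s L := by
  unfold ev
  rw [List.map_cons, List.prod_cons]

theorem ev_append {ι : Type*} (s : ι → G) (L M : List (ι × Bool)) :
    ev s (L ++ M) = ev s L * ev s M := by
  unfold ev
  rw [List.map_append, List.prod_append]

theorem ev_lift {ι : Type*} (s : ι → G) (L : List (ι × Bool)) :
    FreeGroup.lift s (FreeGroup.mk L) = ev s L := by
  rw [FreeGroup.lift_mk]
  rfl

/-- the Fox derivatives of a word, twisted by a character -/
noncomputable def fox {ι : Type*} [DecidableEq ι] (s : ι → G) (χ : G →* ℂ) (x : ι) :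
    List (ι × Bool) → MonoidAlgebra ℂ G
  | [] => 0
  | y :: L => MonoidAlgebra.single (cond y.2 (s y.1) (s y.1)⁻¹) 1 * fox s χ x L
      + (if y.1 = x then cond y.2 (MonoidAlgebra.single 1 (χ (ev s L)))
          (MonoidAlgebra.single (s x)⁻¹ (-(χ (s x)⁻¹ * χ (ev s L)))) else 0)

theorem chi_inv (χ : G →* ℂ) (g : G) : χ g⁻¹ * χ g = 1 := by
  rw [← map_mul, inv_mul_cancel, map_one]

theorem chi_ne (χ : G →* ℂ) (g : G) : χ g ≠ 0 := by
  intro h
  have := chi_inv χ g
  rw [h, mul_zero] at this
  exact zero_ne_one this

theorem fox_sum {ι : Type*} [DecidableEq ι] [Fintype ι] (s : ι → G) (χ : G →* ℂ)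
    (L : List (ι × Bool)) :
    ∑ x, fox s χ x L * (MonoidAlgebra.single (s x) 1 - MonoidAlgebra.single 1 (χ (s x)))
      = MonoidAlgebra.single (ev s L) 1 - MonoidAlgebra.single 1 (χ (ev s L)) := by
  induction L with
  | nil =>
    simp [fox, ev_nil]
  | cons y L ih =>
    have h1 : ∀ x, fox s χ x (y :: L)
        * (MonoidAlgebra.single (s x) 1 - MonoidAlgebra.single 1 (χ (s x)))
        = MonoidAlgebra.single (cond y.2 (s y.1) (s y.1)⁻¹) 1 * (fox s χ x L
          * (MonoidAlgebra.single (s x) 1 - MonoidAlgebra.single 1 (χ (s x))))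
        + (if x = y.1 then cond y.2 (MonoidAlgebra.single 1 (χ (ev s L)))
          (MonoidAlgebra.single (s y.1)⁻¹ (-(χ (s y.1)⁻¹ * χ (ev s L))))
          * (MonoidAlgebra.single (s y.1) 1 - MonoidAlgebra.single 1 (χ (s y.1))) else 0) := by
      intro x
      rw [fox, add_mul, mul_assoc]
      congr 1
      by_cases h : y.1 = x
      · subst h
        rw [if_pos rfl, if_pos rfl]
      · rw [if_neg h, if_neg (fun h' => h h'.symm), zero_mul]
    rw [Finset.sum_congr rfl fun x _ => h1 x, Finset.sum_add_distrib, ← Finset.mul_sum, ih,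
      Finset.sum_ite_eq', if_pos (Finset.mem_univ _), ev_cons]
    obtain ⟨i, b⟩ := y
    cases b
    · simp only [cond_false]
      rw [mul_sub, mul_sub, MonoidAlgebra.single_mul_single, MonoidAlgebra.single_mul_single,
        MonoidAlgebra.single_mul_single, MonoidAlgebra.single_mul_single]
      simp only [mul_one, one_mul, inv_mul_cancel, map_mul]
      have e1 : -(χ (s i)⁻¹ * χ (ev s L)) * χ (s i) = - χ (ev s L) := by
        have := chi_inv χ (s i)
        linear_combination (-χ (ev s L)) * this
      rw [e1, MonoidAlgebra.single_neg, MonoidAlgebra.single_neg]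
      abel
    · simp only [cond_true]
      rw [mul_sub, mul_sub, MonoidAlgebra.single_mul_single, MonoidAlgebra.single_mul_single,
        MonoidAlgebra.single_mul_single, MonoidAlgebra.single_mul_single]
      simp only [mul_one, one_mul, map_mul]
      rw [mul_comm (χ (ev s L))]
      abel

theorem single_mul_coeff (a g : G) (f : MonoidAlgebra ℂ G) :
    (MonoidAlgebra.single a 1 * f).coeff g = f.coeff (a⁻¹ * g) := by
  rw [MonoidAlgebra.coeff_single_mul_eq_mul_coeff (a⁻¹ * g)]
  · rw [one_mul]
  · intro m _
    exact eq_inv_mul_iff_mul_eq.symm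

theorem fox_supp {ι : Type*} [DecidableEq ι] (s : ι → G) (χ : G →* ℂ) (x : ι)
    (L : List (ι × Bool)) (g : G) (h : (fox s χ x L).coeff g ≠ 0) :
    ∃ M N, (L = M ++ (x, true) :: N ∧ g = ev s M) ∨
      (L = M ++ (x, false) :: N ∧ g = ev s (M ++ [(x, false)])) := by
  classical
  induction L generalizing g with
  | nil =>
    exfalso
    apply h
    rfl
  | cons y L ih =>
    rw [fox, MonoidAlgebra.coeff_add, Finsupp.add_apply, single_mul_coeff] at h
    by_cases h1 : (fox s χ x L).coeff ((cond y.2 (s y.1) (s y.1)⁻¹)⁻¹ * g) = 0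
    · rw [h1, zero_add] at h
      by_cases h2 : y.1 = x
      · rw [if_pos h2] at h
        obtain ⟨i, b⟩ := y
        have h2' : i = x := h2
        subst h2'
        cases b
        · refine ⟨[], L, Or.inr ⟨rfl, ?_⟩⟩
          simp only [cond_false] at h
          by_contra hg
          apply h
          rw [MonoidAlgebra.coeff_single, Finsupp.single_apply, if_neg]
          intro h3
          apply hg
          rw [← h3]
          simp [ev]
        · refine ⟨[], L, Or.inl ⟨rfl, ?_⟩⟩
          simp only [cond_true] at h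
          by_contra hg
          apply h
          rw [MonoidAlgebra.coeff_single, Finsupp.single_apply, if_neg]
          intro h3
          apply hg
          rw [← h3]
          rfl
      · rw [if_neg h2] at h
        exact absurd rfl h
    · obtain ⟨M, N, h2⟩ := ih _ h1
      refine ⟨y :: M, N, ?_⟩
      rcases h2 with ⟨h3, h4⟩ | ⟨h3, h4⟩
      · left
        refine ⟨by rw [h3]; rfl, ?_⟩
        rw [ev_cons, ← h4, mul_inv_cancel_left]
      · right
        refine ⟨by rw [h3]; rfl, ?_⟩
        rw [List.cons_append, ev_cons, ← h4, mul_inv_cancel_left]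

/-- no cancelling neighbours -/
def Rd {ι : Type*} (L : List (ι × Bool)) : Prop :=
  ∀ M N (x : ι) (b : Bool), L ≠ M ++ (x, b) :: (x, !b) :: N

theorem Rd.sub {ι : Type*} {A L B : List (ι × Bool)} (h : Rd (A ++ L ++ B)) : Rd L := by
  intro M N x b hL
  apply h (A ++ M) (N ++ B) x b
  rw [hL]
  simp

theorem fox_ne {ι : Type*} [DecidableEq ι] (s : ι → G) (χ : G →* ℂ) (L : List (ι × Bool))
    (hL : L ≠ []) (hr : Rd L) (h1 : ev s L = 1)
    (hmin : ∀ M : List (ι × Bool), M ≠ [] → Rd M → ev s M = 1 → L.length ≤ M.length) :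
    ∃ x, fox s χ x L ≠ 0 := by
  obtain ⟨y, L', rfl⟩ := List.exists_cons_of_ne_nil hL
  obtain ⟨x, b⟩ := y
  refine ⟨x, ?_⟩
  cases b
  · -- the first letter is inverse
    intro h0
    have h2 : (fox s χ x ((x, false) :: L')).coeff (s x)⁻¹ = 0 := by rw [h0]; rfl
    rw [fox, MonoidAlgebra.coeff_add, Finsupp.add_apply, single_mul_coeff, if_pos rfl] at h2
    simp only [cond_false, inv_inv, mul_inv_cancel, MonoidAlgebra.coeff_single,
      Finsupp.single_eq_same] at h2
    have h3 : (fox s χ x L').coeff 1 ≠ 0 := by
      intro h4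
      rw [h4, zero_add, neg_eq_zero] at h2
      exact mul_ne_zero (chi_ne χ _) (chi_ne χ _) h2
    obtain ⟨M, N, h5⟩ := fox_supp s χ x L' 1 h3
    rcases h5 with ⟨h6, h7⟩ | ⟨h6, h7⟩
    · by_cases hM : M = []
      · subst hM
        apply hr [] N x false
        rw [h6]
        rfl
      · have h8 := hmin M hM (Rd.sub (A := [(x, false)]) (B := (x, true) :: N) (by
          rw [h6] at hr
          simpa using hr)) h7.symm
        rw [h6] at h8
        simp only [List.length_cons, List.length_append] at h8
        omega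
    · have h8 := hmin (M ++ [(x, false)]) (by simp) (Rd.sub (A := [(x, false)]) (B := N) (by
          rw [h6] at hr
          simpa using hr)) h7.symm
      rw [h6] at h8
      simp only [List.length_cons, List.length_append, List.length_nil] at h8
      omega
  · intro h0
    have h2 : (fox s χ x ((x, true) :: L')).coeff 1 = 0 := by rw [h0]; rfl
    rw [fox, MonoidAlgebra.coeff_add, Finsupp.add_apply, single_mul_coeff, if_pos rfl] at h2
    simp only [cond_true, mul_one, MonoidAlgebra.coeff_single,
      Finsupp.single_eq_same] at h2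
    have h3 : (fox s χ x L').coeff (s x)⁻¹ ≠ 0 := by
      intro h4
      rw [h4, zero_add] at h2
      exact chi_ne χ _ h2
    obtain ⟨M, N, h5⟩ := fox_supp s χ x L' _ h3
    rcases h5 with ⟨h6, h7⟩ | ⟨h6, h7⟩
    · have h8 := hmin ((x, true) :: M) (by simp) (Rd.sub (A := []) (B := (x, true) :: N) (by
          rw [h6] at hr
          simpa using hr)) (by
          rw [ev_cons, ← h7]
          exact mul_inv_cancel _)
      rw [h6] at h8
      simp only [List.length_cons, List.length_append] at h8
      omega
    · by_cases hN : N = []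
      · subst hN
        by_cases hM : M = []
        · subst hM
          apply hr [] [] x true
          rw [h6]
          rfl
        · have h9 : ev s M = 1 := by
            rw [ev_append] at h7
            have e : ev s [(x, false)] = (s x)⁻¹ := by simp [ev]
            rw [e] at h7
            have h10 : 1 * (s x)⁻¹ = ev s M * (s x)⁻¹ := by rw [one_mul]; exact h7
            exact (mul_right_cancel h10).symm
          have h8 := hmin M hM (Rd.sub (A := [(x, true)]) (B := [(x, false)]) (by
            rw [h6] at hr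
            simpa using hr)) h9
          rw [h6] at h8
          simp only [List.length_cons, List.length_append, List.length_nil] at h8
          omega
      · have h8 := hmin ((x, true) :: (M ++ [(x, false)])) (by simp)
          (Rd.sub (A := []) (B := N) (by
            rw [h6] at hr
            simpa using hr)) (by
            rw [ev_cons, ← h7]
            exact mul_inv_cancel _)
        rw [h6] at h8
        have h9 : 0 < N.length := List.length_pos_iff.2 hN
        simp only [List.length_cons, List.length_append, List.length_nil] at h8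
        omega

theorem rd_toWord {ι : Type*} [DecidableEq ι] (w : FreeGroup ι) : Rd w.toWord := by
  intro M N x b h
  have h1 : FreeGroup.Red.Step (M ++ (x, b) :: (x, !b) :: N) (M ++ N) := FreeGroup.Red.Step.not
  have h2 : FreeGroup.reduce w.toWord = w.toWord := FreeGroup.reduce_toWord w
  have h3 : FreeGroup.mk (M ++ (x, b) :: (x, !b) :: N) = FreeGroup.mk (M ++ N) :=
    Quot.sound h1
  rw [← h] at h3
  have h4 := congrArg FreeGroup.toWord h3
  rw [FreeGroup.toWord_mk, FreeGroup.toWord_mk, h2, h] at h4
  have h5 : (FreeGroup.reduce (M ++ N)).length ≤ (M ++ N).length :=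
    FreeGroup.Red.length_le FreeGroup.reduce.red
  rw [← h4] at h5
  simp only [List.length_append, List.length_cons] at h5
  omega

/-- **Fox calculus.** -/
theorem exists_relation {ι : Type*} [DecidableEq ι] [Fintype ι] (s : ι → G)
    (hs : ¬ Function.Injective (FreeGroup.lift s)) (χ : G →* ℂ) :
    ∃ c : ι → MonoidAlgebra ℂ G, c ≠ 0 ∧
      ∑ x, c x * (MonoidAlgebra.single (s x) 1 - MonoidAlgebra.single 1 (χ (s x))) = 0 := by
  classical
  rw [injective_iff_map_eq_one] at hs
  push Not at hs
  obtain ⟨w, hw1, hw2⟩ := hs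
  have hex : ∃ n, ∃ L : List (ι × Bool), L ≠ [] ∧ Rd L ∧ ev s L = 1 ∧ L.length = n := by
    refine ⟨_, w.toWord, ?_, rd_toWord w, ?_, rfl⟩
    · intro h
      exact hw2 (FreeGroup.toWord_eq_nil_iff.1 h)
    · rw [← ev_lift, FreeGroup.mk_toWord, hw1]
  obtain ⟨L, h1, h2, h3, h4⟩ := Nat.find_spec hex
  obtain ⟨x, hx⟩ := fox_ne s χ L h1 h2 h3 (by
    intro M hM1 hM2 hM3
    rw [h4]
    exact Nat.find_min' hex ⟨M, hM1, hM2, hM3, rfl⟩)
  refine ⟨fun x => fox s χ x L, fun h => hx (congrFun h x), ?_⟩
  rw [fox_sum, h3, map_one, sub_self]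

end Pool.Agent.N309.PD
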