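import Pool.Agent.N309.PD.Op
import Pool.Agent.N309.PD.Fox
import Pool.Agent.N309.LO.Rows

set_option autoImplicit false
set_option linter.unusedSectionVars false

open scoped InnerProductSpace InnerProduct ENNReal
open scoped Matrix

/-! The lowest degrees of a resolution of a one-dimensional module. -/

namespace Pool.Agent.N309.PD

open Pool.Agent.W649.ZL Pool.Agent.N309.LO

universe u v w z

section alg
variable {G : Type u} [Group G] {J : Type v} [Fintype J] [DecidableEq J]

/-- the translate of a vector by a group element -/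
noncomputable def gsm (g : G) (x : J → MonoidAlgebra ℂ G) : J → MonoidAlgebra ℂ G :=
  fun j => MonoidAlgebra.single g 1 * x j

/-- the augmentation data: a linear functional whose kernel is invariant under left translations -/
structure Aug (φ : (J → MonoidAlgebra ℂ G) →ₗ[ℂ] ℂ) : Prop where
  ne : φ ≠ 0
  inv : ∀ (g : G) x, φ x = 0 → φ (gsm g x) = 0

theorem gsm_add (g : G) (x y : J → MonoidAlgebra ℂ G) : gsm g (x + y) = gsm g x + gsm g y := by
  funext j; exact mul_add _ _ _

theorem gsm_smul (g : G) (c : ℂ) (x : J → MonoidAlgebra ℂ G) :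
    gsm g (c • x) = c • gsm g x := by
  funext j
  change MonoidAlgebra.single g 1 * (c • x j) = c • (MonoidAlgebra.single g 1 * x j)
  exact Algebra.mul_smul_comm c _ _

theorem gsm_one (x : J → MonoidAlgebra ℂ G) : gsm 1 x = x := by
  funext j
  change MonoidAlgebra.single 1 1 * x j = x j
  rw [← MonoidAlgebra.one_def, one_mul]

theorem gsm_mul (g h : G) (x : J → MonoidAlgebra ℂ G) : gsm (g * h) x = gsm g (gsm h x) := by
  funext j
  change MonoidAlgebra.single (g * h) 1 * x j = MonoidAlgebra.single g 1 *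
    (MonoidAlgebra.single h 1 * x j)
  rw [← mul_assoc, MonoidAlgebra.single_mul_single, one_mul]

theorem Aug.exists_char {φ : (J → MonoidAlgebra ℂ G) →ₗ[ℂ] ℂ} (h : Aug φ) :
    ∃ χ : G →* ℂ, ∀ (g : G) x, φ (gsm g x) = χ g * φ x := by
  obtain ⟨x1, hx1⟩ : ∃ x, φ x ≠ 0 := by
    by_contra hcon
    push Not at hcon
    exact h.ne (LinearMap.ext hcon)
  set x0 := (φ x1)⁻¹ • x1 with hx0
  have h0 : φ x0 = 1 := by
    rw [hx0, map_smul, smul_eq_mul, inv_mul_cancel₀ hx1]
  have key : ∀ (g : G) x, φ (gsm g x) = φ (gsm g x0) * φ x := by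
    intro g x
    have h1 : φ (x + (-(φ x)) • x0) = 0 := by
      rw [map_add, map_smul, h0, smul_eq_mul]
      ring
    have h2 := h.inv g _ h1
    rw [gsm_add, gsm_smul, map_add, map_smul, smul_eq_mul] at h2
    linear_combination h2
  refine ⟨{ toFun := fun g => φ (gsm g x0), map_one' := ?_, map_mul' := ?_ }, key⟩
  · rw [gsm_one, h0]
  · intro a b
    rw [gsm_mul, key]

/-- the augmentation of the group algebra given by a character -/
noncomputable def chi (χ : G →* ℂ) : MonoidAlgebra ℂ G →ₐ[ℂ] ℂ := MonoidAlgebra.lift ℂ _ G χ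

theorem chi_single (χ : G →* ℂ) (g : G) (c : ℂ) :
    chi χ (MonoidAlgebra.single g c) = c * χ g := by
  unfold chi
  rw [MonoidAlgebra.lift_single, smul_eq_mul]

theorem phi_single {φ : (J → MonoidAlgebra ℂ G) →ₗ[ℂ] ℂ} (χ : G →* ℂ)
    (hχ : ∀ (g : G) x, φ (gsm g x) = χ g * φ x) (j : J) (α : MonoidAlgebra ℂ G) :
    φ (Pi.single j α) = chi χ α * φ (Pi.single j 1) := by
  induction α using MonoidAlgebra.induction_linear with
  | zero => rw [Pi.single_zero, map_zero, map_zero, zero_mul]
  | add a b ha hb => rw [Pi.single_add, map_add, ha, hb, map_add, add_mul]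
  | single g c =>
    have h1 : (Pi.single j (MonoidAlgebra.single g c) : J → MonoidAlgebra ℂ G)
        = c • gsm g (Pi.single j 1) := by
      funext i
      by_cases h : i = j
      · subst h
        rw [Pi.single_eq_same]
        change _ = c • (MonoidAlgebra.single g 1
          * (Pi.single i (1 : MonoidAlgebra ℂ G) : J → MonoidAlgebra ℂ G) i)
        rw [Pi.single_eq_same, mul_one, MonoidAlgebra.smul_single, smul_eq_mul, mul_one]
      · rw [Pi.single_eq_of_ne h]
        change _ = c • (MonoidAlgebra.single g 1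
          * (Pi.single j (1 : MonoidAlgebra ℂ G) : J → MonoidAlgebra ℂ G) i)
        rw [Pi.single_eq_of_ne h, mul_zero, smul_zero]
    rw [h1, map_smul, hχ, chi_single, smul_eq_mul, mul_assoc]

theorem phi_eq {φ : (J → MonoidAlgebra ℂ G) →ₗ[ℂ] ℂ} (χ : G →* ℂ)
    (hχ : ∀ (g : G) x, φ (gsm g x) = χ g * φ x) (x : J → MonoidAlgebra ℂ G) :
    φ x = ∑ j, chi χ (x j) * φ (Pi.single j 1) := by
  have h1 : x = ∑ j, Pi.single j (x j) := (Finset.univ_sum_single x).symm
  conv_lhs => rw [h1, map_sum]
  exact Finset.sum_congr rfl fun j _ => phi_single χ hχ j (x j)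

/-- the left ideal generated by `s j - χ (s j)` -/
theorem mem_ideal {ι : Type*} [Fintype ι] (s : ι → G)
    (hs : Subgroup.closure (Set.range s) = ⊤) (χ : G →* ℂ) (α : MonoidAlgebra ℂ G)
    (hα : chi χ α = 0) :
    ∃ c : ι → MonoidAlgebra ℂ G,
      ∑ j, c j * (MonoidAlgebra.single (s j) 1 - MonoidAlgebra.single 1 (χ (s j))) = α := by
  set I : Submodule (MonoidAlgebra ℂ G) (MonoidAlgebra ℂ G) := Submodule.span _
    (Set.range fun j : ι => MonoidAlgebra.single (s j) 1 - MonoidAlgebra.single 1 (χ (s j)))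
    with hI
  have h1 : ∀ g : G, (MonoidAlgebra.single g 1 - MonoidAlgebra.single 1 (χ g) :
      MonoidAlgebra ℂ G) ∈ I := by
    intro g
    have hg : g ∈ Subgroup.closure (Set.range s) := by rw [hs]; trivial
    induction hg using Subgroup.closure_induction with
    | mem x hx =>
      obtain ⟨j, rfl⟩ := hx
      exact Submodule.subset_span ⟨j, rfl⟩
    | one =>
      rw [map_one, sub_self]
      exact Submodule.zero_mem _
    | mul x y _ _ hx hy =>
      have e : (MonoidAlgebra.single (x * y) 1 - MonoidAlgebra.single 1 (χ (x * y)) :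
          MonoidAlgebra ℂ G) = (MonoidAlgebra.single x 1 : MonoidAlgebra ℂ G) •
            (MonoidAlgebra.single y 1 - MonoidAlgebra.single 1 (χ y))
          + (MonoidAlgebra.single 1 (χ y) : MonoidAlgebra ℂ G) •
            (MonoidAlgebra.single x 1 - MonoidAlgebra.single 1 (χ x)) := by
        rw [smul_eq_mul, smul_eq_mul, mul_sub, mul_sub, MonoidAlgebra.single_mul_single,
          MonoidAlgebra.single_mul_single, MonoidAlgebra.single_mul_single,
          MonoidAlgebra.single_mul_single]
        simp only [mul_one, one_mul, map_mul]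
        rw [mul_comm (χ y) (χ x)]
        abel
      rw [e]
      exact Submodule.add_mem _ (Submodule.smul_mem _ _ hy) (Submodule.smul_mem _ _ hx)
    | inv x _ hx =>
      have e : (MonoidAlgebra.single x⁻¹ 1 - MonoidAlgebra.single 1 (χ x⁻¹) :
          MonoidAlgebra ℂ G) = (MonoidAlgebra.single x⁻¹ (-(χ x⁻¹)) : MonoidAlgebra ℂ G) •
            (MonoidAlgebra.single x 1 - MonoidAlgebra.single 1 (χ x)) := by
        rw [smul_eq_mul, mul_sub, MonoidAlgebra.single_mul_single,
          MonoidAlgebra.single_mul_single, inv_mul_cancel, mul_one, mul_one]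
        have h := chi_inv χ x
        have e2 : -(χ x⁻¹) * χ x = -1 := by linear_combination -h
        rw [e2, MonoidAlgebra.single_neg, MonoidAlgebra.single_neg]
        abel
      rw [e]
      exact Submodule.smul_mem _ _ hx
  have h2 : ∀ β : MonoidAlgebra ℂ G, β - MonoidAlgebra.single 1 (chi χ β) ∈ I := by
    intro β
    induction β using MonoidAlgebra.induction_linear with
    | zero =>
      rw [map_zero, MonoidAlgebra.single_zero, sub_self]
      exact Submodule.zero_mem _
    | add a b ha hb =>
      rw [map_add, MonoidAlgebra.single_add]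
      have e : a + b - (MonoidAlgebra.single 1 (chi χ a) + MonoidAlgebra.single 1 (chi χ b))
          = (a - MonoidAlgebra.single 1 (chi χ a)) + (b - MonoidAlgebra.single 1 (chi χ b)) := by
        abel
      rw [e]
      exact Submodule.add_mem _ ha hb
    | single g c =>
      have e : (MonoidAlgebra.single g c - MonoidAlgebra.single 1 (chi χ (MonoidAlgebra.single g c)) :
          MonoidAlgebra ℂ G) = (MonoidAlgebra.single 1 c : MonoidAlgebra ℂ G) •
            (MonoidAlgebra.single g 1 - MonoidAlgebra.single 1 (χ g)) := by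
        rw [chi_single, smul_eq_mul, mul_sub, MonoidAlgebra.single_mul_single,
          MonoidAlgebra.single_mul_single, one_mul, one_mul, mul_one]
      rw [e]
      exact Submodule.smul_mem _ _ (h1 g)
  have h3 : α ∈ I := by
    have := h2 α
    rwa [hα, MonoidAlgebra.single_zero, sub_zero] at this
  rw [hI, Submodule.mem_span_range_iff_exists_fun] at h3
  obtain ⟨c, hc⟩ := h3
  exact ⟨c, hc⟩

end alg

section main
variable {G : Type u} [Group G] {J : Type v} [Fintype J] [DecidableEq J] {L : Type w} [Fintype L]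
  [DecidableEq L] {M : Type z} [Fintype M] [DecidableEq M]

/-- no nonzero element of the group algebra has a kernel on `ℓ²(G)` -/
def NZ (G : Type u) [Group G] : Prop :=
  ∀ α : MonoidAlgebra ℂ G, α ≠ 0 → ∀ f : EE G Unit, Lam α f = 0 → f = 0

theorem nz_left [LinearOrder G] (h : ∀ g a b : G, a ≤ b → g * a ≤ g * b) : NZ G := by
  intro α hα f hf
  rw [Lam_eq] at hf
  have h1 := leftOrdered_injective h α.coeff (by
    intro h2
    exact hα (MonoidAlgebra.coeff_eq_zero.1 h2))
  exact h1 (by rw [hf, map_zero])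

theorem sub_ne (χ : G →* ℂ) {g : G} (hg : g ≠ 1) :
    (MonoidAlgebra.single g 1 - MonoidAlgebra.single 1 (χ g) : MonoidAlgebra ℂ G) ≠ 0 := by
  classical
  intro h
  have h1 : (MonoidAlgebra.single g 1 - MonoidAlgebra.single 1 (χ g) : MonoidAlgebra ℂ G).coeff g
      = 0 := by rw [h]; rfl
  have h2 : (MonoidAlgebra.single g 1 - MonoidAlgebra.single 1 (χ g) : MonoidAlgebra ℂ G).coeff g
      = 1 := by
    rw [MonoidAlgebra.coeff_sub, Finsupp.sub_apply, MonoidAlgebra.coeff_single,
      MonoidAlgebra.coeff_single, Finsupp.single_eq_same, Finsupp.single_apply,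
      if_neg (fun h => hg h.symm), sub_zero]
  rw [h2] at h1
  exact one_ne_zero h1

/-- degree zero -/
theorem ker_zero (hZ : NZ G) [Nontrivial G] (A : Matrix L J (MonoidAlgebra ℂ G))
    (φ : (J → MonoidAlgebra ℂ G) →ₗ[ℂ] ℂ) (hφ : Aug φ)
    (hA : ∀ x, (∃ y, y ᵥ* A = x) ↔ φ x = 0) (F : EE G J) (hF : opM A F = 0) : F = 0 := by
  obtain ⟨χ, hχ⟩ := hφ.exists_char
  obtain ⟨g, hg⟩ := exists_ne (1 : G)
  apply ext_cmp
  intro j
  rw [map_zero]
  apply hZ _ (sub_ne χ hg)
  rw [← pr_single j _ F]
  obtain ⟨y, hy⟩ := (hA (Pi.single j (MonoidAlgebra.single g 1 - MonoidAlgebra.single 1 (χ g)))).2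
    (by
      rw [phi_single χ hχ, map_sub, chi_single, chi_single, map_one, one_mul, mul_one, sub_self,
        zero_mul])
  rw [← hy, ← pr_opM, hF, pr_zero_right]

/-- degree one -/
theorem ker_one (hZ : NZ G) (A : Matrix L J (MonoidAlgebra ℂ G))
    (B : Matrix M L (MonoidAlgebra ℂ G))
    (φ : (J → MonoidAlgebra ℂ G) →ₗ[ℂ] ℂ) (hφ : Aug φ)
    (hA : ∀ x, (∃ y, y ᵥ* A = x) ↔ φ x = 0)
    (hB : ∀ x, x ᵥ* A = 0 → ∃ y, y ᵥ* B = x)
    {ι : Type*} [Fintype ι] [DecidableEq ι] (s : ι → G)
    (hs : Subgroup.closure (Set.range s) = ⊤) (hs2 : ¬ Function.Injective (FreeGroup.lift s)) :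
    vd (LinearMap.ker (opM B : EE G L →ₗ[ℂ] EE G M))
      ≤ (Fintype.card J : ℝ) + Fintype.card ι - 2 := by
  classical
  obtain ⟨χ, hχ⟩ := hφ.exists_char
  obtain ⟨c, hc0, hc⟩ := exists_relation s hs2 χ
  -- a coordinate on which the functional is nonzero
  obtain ⟨j0, hj0⟩ : ∃ j, φ (Pi.single j 1) ≠ 0 := by
    by_contra hcon
    push Not at hcon
    apply hφ.ne
    apply LinearMap.ext
    intro x
    rw [phi_eq χ hχ x]
    apply Finset.sum_eq_zero
    intro j _
    rw [hcon, mul_zero]
  set n : J → ℂ := fun j => φ (Pi.single j 1) with hn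
  -- generators
  set U : ι → J → MonoidAlgebra ℂ G := fun i => Pi.single j0
    (MonoidAlgebra.single (s i) 1 - MonoidAlgebra.single 1 (χ (s i))) with hU
  set V : {j : J // j ≠ j0} → J → MonoidAlgebra ℂ G := fun j => Pi.single j.1 1
    - Pi.single j0 (MonoidAlgebra.single 1 (n j.1 / n j0)) with hV
  have hUφ : ∀ i, φ (U i) = 0 := by
    intro i
    rw [hU]
    change φ (Pi.single j0 _) = 0
    rw [phi_single χ hχ, map_sub, chi_single, chi_single, map_one, one_mul, mul_one, sub_self,
        zero_mul]
  have hVφ : ∀ j, φ (V j) = 0 := by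
    intro j
    rw [hV]
    change φ (Pi.single j.1 1 - Pi.single j0 _) = 0
    rw [map_sub, phi_single χ hχ j0, chi_single, map_one, mul_one]
    change n j.1 - n j.1 / n j0 * n j0 = 0
    rw [div_mul_cancel₀ _ hj0, sub_self]
  choose X hX using fun i => (hA (U i)).2 (hUφ i)
  choose Y hY using fun j => (hA (V j)).2 (hVφ j)
  set XY : Matrix (ι ⊕ {j : J // j ≠ j0}) L (MonoidAlgebra ℂ G) := fun k => Sum.elim X Y k with hXY
  set R : Matrix Unit (ι ⊕ {j : J // j ≠ j0}) (MonoidAlgebra ℂ G) :=
    fun _ k => Sum.elim c (fun _ => 0) k with hR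
  have hXYA : ∀ p : ι ⊕ {j : J // j ≠ j0} → MonoidAlgebra ℂ G,
      (p ᵥ* XY) ᵥ* A = ∑ i, (fun l => p (Sum.inl i) * U i l) + ∑ j, (fun l => p (Sum.inr j) * V j l) := by
    intro p
    rw [Matrix.vecMul_vecMul]
    funext l
    change ∑ k, p k * (XY * A) k l = _
    rw [Fintype.sum_sum_type, Pi.add_apply, Finset.sum_apply, Finset.sum_apply]
    congr 1
    · refine Finset.sum_congr rfl fun i _ => ?_
      congr 1
      exact congrFun (hX i) l
    · refine Finset.sum_congr rfl fun j _ => ?_
      congr 1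
      exact congrFun (hY j) l
  -- the kernel of `B` is mapped to the kernel of `R`
  have hRB : ∀ F, opM B F = 0 → opM R (opM XY F) = 0 := by
    intro F hF
    rw [opM_eq_zero]
    intro k
    rw [pr_opM]
    have h1 : (R k ᵥ* XY) ᵥ* A = 0 := by
      rw [hXYA]
      have e1 : ∑ j : {j : J // j ≠ j0}, (fun l => R k (Sum.inr j) * V j l) = 0 := by
        apply Finset.sum_eq_zero
        intro j _
        funext l
        change (0 : MonoidAlgebra ℂ G) * _ = 0
        rw [zero_mul]
      rw [e1, add_zero]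
      funext l
      rw [Finset.sum_apply]
      change ∑ i, c i * (Pi.single j0 (MonoidAlgebra.single (s i) 1
        - MonoidAlgebra.single 1 (χ (s i))) : J → MonoidAlgebra ℂ G) l = 0
      by_cases h : l = j0
      · subst h
        simp only [Pi.single_eq_same]
        exact hc
      · apply Finset.sum_eq_zero
        intro i _
        rw [Pi.single_eq_of_ne h, mul_zero]
    obtain ⟨y, hy⟩ := hB _ h1
    rw [← hy, ← pr_opM, hF, pr_zero_right]
  -- the map is injective on the kernel of `B`
  have hinj : ∀ F, opM B F = 0 → opM XY F = 0 → F = 0 := by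
    intro F hF1 hF2
    have key : ∀ z : L → MonoidAlgebra ℂ G, pr z F = 0 := by
      intro z
      have h1 : φ (z ᵥ* A) = 0 := (hA _).1 ⟨z, rfl⟩
      set x := z ᵥ* A with hx
      -- the remainder
      set r : MonoidAlgebra ℂ G := x j0 + ∑ j : {j : J // j ≠ j0},
        x j.1 * MonoidAlgebra.single 1 (n j.1 / n j0) with hr
      have h2 : chi χ r = 0 := by
        rw [phi_eq χ hχ x, ← Finset.add_sum_erase _ _ (Finset.mem_univ j0)] at h1
        have h3 : chi χ r * n j0 = 0 := by
          rw [hr, map_add, map_sum, add_mul, Finset.sum_mul]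
          have h4 : ∀ j : {j : J // j ≠ j0}, chi χ (x j.1 * MonoidAlgebra.single 1 (n j.1 / n j0))
              * n j0 = chi χ (x j.1) * n j.1 := by
            intro j
            rw [map_mul, chi_single, map_one, mul_one, mul_assoc, div_mul_cancel₀ _ hj0]
          rw [Finset.sum_congr rfl fun j _ => h4 j]
          rw [← h1]
          congr 1
          symm
          apply Finset.sum_subtype
          intro j
          simp
        exact (mul_eq_zero.1 h3).resolve_right hj0
      obtain ⟨d, hd⟩ := mem_ideal s hs χ r h2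
      set p : ι ⊕ {j : J // j ≠ j0} → MonoidAlgebra ℂ G := Sum.elim d (fun j => x j.1) with hp
      have h5 : (p ᵥ* XY) ᵥ* A = x := by
        rw [hXYA]
        funext l
        rw [Pi.add_apply, Finset.sum_apply, Finset.sum_apply]
        change ∑ i, d i * (Pi.single j0 (MonoidAlgebra.single (s i) 1
          - MonoidAlgebra.single 1 (χ (s i))) : J → MonoidAlgebra ℂ G) l
          + ∑ j : {j : J // j ≠ j0}, x j.1 * ((Pi.single j.1 1 : J → MonoidAlgebra ℂ G) l
            - (Pi.single j0 (MonoidAlgebra.single 1 (n j.1 / n j0)) : J → MonoidAlgebra ℂ G) l)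
          = x l
        by_cases h : l = j0
        · subst h
          simp only [Pi.single_eq_same]
          rw [hd]
          have h6 : ∀ j : {j : J // j ≠ l}, x j.1 * ((Pi.single j.1 1 : J → MonoidAlgebra ℂ G) l
              - MonoidAlgebra.single 1 (n j.1 / n l))
              = - (x j.1 * MonoidAlgebra.single 1 (n j.1 / n l)) := by
            intro j
            rw [Pi.single_eq_of_ne (fun h => j.2 h.symm), zero_sub, mul_neg]
          rw [Finset.sum_congr rfl fun j _ => h6 j, Finset.sum_neg_distrib, hr]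
          abel
        · have h7 : ∑ i, d i * (Pi.single j0 (MonoidAlgebra.single (s i) 1
              - MonoidAlgebra.single 1 (χ (s i))) : J → MonoidAlgebra ℂ G) l = 0 := by
            apply Finset.sum_eq_zero
            intro i _
            rw [Pi.single_eq_of_ne h, mul_zero]
          rw [h7, zero_add, Finset.sum_eq_single (⟨l, h⟩ : {j : J // j ≠ j0})]
          · rw [Pi.single_eq_same, Pi.single_eq_of_ne h, sub_zero, mul_one]
          · intro j _ hj
            have h8 : l ≠ j.1 := fun h' => hj (Subtype.ext h'.symm)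
            rw [Pi.single_eq_of_ne h8, Pi.single_eq_of_ne h, sub_zero, mul_zero]
          · intro h'
            exact absurd (Finset.mem_univ _) h'
      have h9 : (z + (-(p ᵥ* XY))) ᵥ* A = 0 := by
        rw [Matrix.add_vecMul, Matrix.neg_vecMul, h5, hx, add_neg_cancel]
      obtain ⟨y, hy⟩ := hB _ h9
      have h10 : z = y ᵥ* B + p ᵥ* XY := by
        rw [hy]
        abel
      rw [h10, pr_add_left, ← pr_opM, ← pr_opM, hF1, hF2, pr_zero_right, pr_zero_right, add_zero]
    apply ext_cmp
    intro l
    have h := key (Pi.single l 1)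
    rw [pr_single, map_one] at h
    rw [map_zero]
    exact h
  -- the dimension
  have h1 := rank_nullity (opM XY) (opM_eqv XY) (inv_ker (opM B) (opM_eqv B))
    (ContinuousLinearMap.isClosed_ker (opM B))
  have h2 : LinearMap.ker (opM B : EE G L →ₗ[ℂ] EE G M)
      ⊓ LinearMap.ker (opM XY : EE G L →ₗ[ℂ] EE G (ι ⊕ {j : J // j ≠ j0})) = ⊥ := by
    rw [eq_bot_iff]
    rintro F ⟨hF1, hF2⟩
    rw [Submodule.mem_bot]
    exact hinj F hF1 hF2
  rw [h2, vd_bot, zero_add] at h1
  rw [h1]
  obtain ⟨i0, hi0⟩ : ∃ i, c i ≠ 0 := by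
    by_contra hcon
    push Not at hcon
    exact hc0 (funext hcon)
  have h3 := vd_ker_le (opM R) (opM_eqv R) {Sum.inl i0} (by
    intro F hF hF2
    have h4 : ∀ k, k ≠ Sum.inl i0 → cmp k F = 0 := by
      intro k hk
      apply ext_unit
      intro x
      rw [cmp_apply, hF2 (x, k) (by simpa using hk)]
      rfl
    have h5 : pr (R ()) F = Lam (c i0) (cmp (Sum.inl i0) F) := by
      unfold pr
      rw [Finset.sum_eq_single (Sum.inl i0)]
      · rfl
      · intro k _ hk
        rw [h4 k hk, map_zero]
      · intro h'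
        exact absurd (Finset.mem_univ _) h'
    have h6 := hZ _ hi0 _ (h5.symm.trans ((opM_eq_zero R F).1 hF ()))
    apply ext_cmp
    intro k
    rw [map_zero]
    by_cases hk : k = Sum.inl i0
    · rw [hk]; exact h6
    · exact h4 k hk)
  have h7 : ((Fintype.card (ι ⊕ {j : J // j ≠ j0}) : ℕ) : ℝ)
      = (Fintype.card J : ℝ) + Fintype.card ι - 1 := by
    have h8 : Fintype.card {j : J // j ≠ j0} + 1 = Fintype.card J := by
      have := Fintype.card_pos_iff.2 ⟨j0⟩
      rw [Fintype.card_subtype_compl, Fintype.card_subtype_eq]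
      omega
    rw [Fintype.card_sum, Nat.cast_add, ← h8]
    push_cast
    ring
  rw [h7, Finset.card_singleton] at h3
  refine (vd_mono ?_).trans (h3.trans (le_of_eq (by push_cast; ring)))
  rintro _ ⟨F, hF, rfl⟩
  exact hRB F hF

end main

end Pool.Agent.N309.PD
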