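import Pool.Agent.N309.PD.Core

set_option autoImplicit false
set_option linter.unusedSectionVars false

open scoped InnerProductSpace InnerProduct ENNReal
open scoped Matrix

/-! Duality complexes: the lowest and the highest degrees. -/

namespace Pool.Agent.N309.PD

open Pool.Agent.W649.ZL Pool.Agent.N309.LO

universe u v w z

section
variable {G : Type u} [Group G] {J : Type v} [Fintype J] [DecidableEq J] {L : Type w} [Fintype L]
  [DecidableEq L] {M : Type z} [Fintype M] [DecidableEq M]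

/-- the sum of the coefficients -/
noncomputable def augm : MonoidAlgebra ℂ G →ₐ[ℂ] ℂ := MonoidAlgebra.lift ℂ _ G 1

theorem augm_eq (α : MonoidAlgebra ℂ G) : augm α = α.coeff.sum fun _ c => c := by
  unfold augm
  rw [MonoidAlgebra.lift_apply]
  refine Finset.sum_congr rfl fun g _ => ?_
  change α.coeff g • (1 : ℂ) = _
  rw [smul_eq_mul, mul_one]

/-- the functional on row vectors -/
noncomputable def augF (a : J → ℂ) : (J → MonoidAlgebra ℂ G) →ₗ[ℂ] ℂ :=
  ∑ j, a j • (augm.toLinearMap ∘ₗ LinearMap.proj j)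

theorem augF_apply (a : J → ℂ) (x : J → MonoidAlgebra ℂ G) :
    augF a x = ∑ j, augm (x j) * a j := by
  unfold augF
  rw [LinearMap.sum_apply]
  refine Finset.sum_congr rfl fun j _ => ?_
  change a j • augm (x j) = _
  rw [smul_eq_mul, mul_comm]

theorem augF_ne (a : J → ℂ) (ha : a ≠ 0) : (augF a : (J → MonoidAlgebra ℂ G) →ₗ[ℂ] ℂ) ≠ 0 := by
  intro h
  apply ha
  funext j
  have h1 : (augF a : (J → MonoidAlgebra ℂ G) →ₗ[ℂ] ℂ) (Pi.single j 1) = 0 := by rw [h]; rfl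
  rw [augF_apply, Finset.sum_eq_single j] at h1
  · rw [Pi.single_eq_same, map_one, one_mul] at h1
    exact h1
  · intro i _ hi
    rw [Pi.single_eq_of_ne hi, map_zero, zero_mul]
  · intro h'
    exact absurd (Finset.mem_univ j) h'

theorem gsm_vecMul (g : G) (y : L → MonoidAlgebra ℂ G) (A : Matrix L J (MonoidAlgebra ℂ G)) :
    gsm g (y ᵥ* A) = gsm g y ᵥ* A := by
  funext j
  change MonoidAlgebra.single g 1 * (∑ l, y l * A l j) = ∑ l, (MonoidAlgebra.single g 1 * y l) * A l j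
  rw [Finset.mul_sum]
  exact Finset.sum_congr rfl fun l _ => (mul_assoc _ _ _).symm

theorem aug_of {φ : (J → MonoidAlgebra ℂ G) →ₗ[ℂ] ℂ} (h : φ ≠ 0) (A : Matrix L J (MonoidAlgebra ℂ G))
    (hA : ∀ x, (∃ y, y ᵥ* A = x) ↔ φ x = 0) : Aug φ := by
  refine ⟨h, ?_⟩
  intro g x hx
  obtain ⟨y, hy⟩ := (hA x).2 hx
  exact (hA _).1 ⟨gsm g y, by rw [← gsm_vecMul, hy]⟩

/-- the functional of the dual complex -/
noncomputable def dualF (φ : (J → MonoidAlgebra ℂ G) →ₗ[ℂ] ℂ) :
    (J → MonoidAlgebra ℂ G) →ₗ[ℂ] ℂ where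
  toFun x := (starRingEnd ℂ) (φ fun j => sig (x j))
  map_add' x y := by
    have e : (fun j => sig ((x + y) j)) = (fun j => sig (x j)) + fun j => sig (y j) := by
      funext j
      exact sig_add _ _
    rw [e, map_add, map_add]
  map_smul' c x := by
    have e : (fun j => sig ((c • x) j)) = (starRingEnd ℂ) c • fun j => sig (x j) := by
      funext j
      exact sig_smul _ _
    rw [e, map_smul, smul_eq_mul, map_mul, Complex.conj_conj]
    rfl

theorem dualF_apply (φ : (J → MonoidAlgebra ℂ G) →ₗ[ℂ] ℂ) (x : J → MonoidAlgebra ℂ G) :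
    dualF φ x = (starRingEnd ℂ) (φ fun j => sig (x j)) := rfl

theorem dualF_ne {φ : (J → MonoidAlgebra ℂ G) →ₗ[ℂ] ℂ} (h : φ ≠ 0) : dualF φ ≠ 0 := by
  intro h1
  apply h
  apply LinearMap.ext
  intro x
  have h2 : dualF φ (fun j => sig (x j)) = 0 := by rw [h1]; rfl
  rw [dualF_apply, map_eq_zero] at h2
  simp only [sig_sig] at h2
  exact h2

theorem dual_aug (A : Matrix J L (MonoidAlgebra ℂ G)) (φ : (J → MonoidAlgebra ℂ G) →ₗ[ℂ] ℂ)
    (hA : ∀ x, (∃ y, A *ᵥ y = x) ↔ φ x = 0) (x : J → MonoidAlgebra ℂ G) :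
    (∃ y, y ᵥ* adjM A = x) ↔ dualF φ x = 0 := by
  rw [dualF_apply, map_eq_zero, ← hA]
  constructor
  · rintro ⟨y, rfl⟩
    refine ⟨fun l => sig (y l), ?_⟩
    funext j
    rw [vecMul_adjM, sig_sig]
  · rintro ⟨y, hy⟩
    refine ⟨fun l => sig (y l), ?_⟩
    funext j
    rw [vecMul_adjM]
    simp only [sig_sig]
    rw [hy, sig_sig]

theorem dual_exact (A : Matrix J L (MonoidAlgebra ℂ G)) (B : Matrix L M (MonoidAlgebra ℂ G))
    (h : ∀ x, A *ᵥ x = 0 → ∃ y, B *ᵥ y = x) (x : L → MonoidAlgebra ℂ G)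
    (hx : x ᵥ* adjM A = 0) : ∃ y, y ᵥ* adjM B = x := by
  have h1 : A *ᵥ (fun l => sig (x l)) = 0 := by
    funext j
    have h2 := congrFun hx j
    rw [vecMul_adjM] at h2
    have h3 := congrArg sig h2
    rw [sig_sig, Pi.zero_apply, sig_zero] at h3
    exact h3
  obtain ⟨y, hy⟩ := h _ h1
  refine ⟨fun m => sig (y m), ?_⟩
  funext l
  rw [vecMul_adjM]
  simp only [sig_sig]
  rw [hy, sig_sig]

theorem harm_dual (A1 : EE G J →L[ℂ] EE G L) (A2 : EE G M →L[ℂ] EE G J) :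
    harm A1 A2 = harm (ContinuousLinearMap.adjoint A2) (ContinuousLinearMap.adjoint A1) := by
  unfold harm
  have h1 := ContinuousLinearMap.orthogonal_range A2
  have h2 := ContinuousLinearMap.orthogonal_range (ContinuousLinearMap.adjoint A1)
  rw [ContinuousLinearMap.adjoint_adjoint] at h2
  rw [h1, h2, inf_comm]

/-- the first Betti number -/
theorem betti_one_le (hZ : NZ G) [Nontrivial G] (A : Matrix L J (MonoidAlgebra ℂ G))
    (B : Matrix M L (MonoidAlgebra ℂ G)) (hBA : B * A = 0)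
    (φ : (J → MonoidAlgebra ℂ G) →ₗ[ℂ] ℂ) (hφ : φ ≠ 0)
    (hA : ∀ x, (∃ y, y ᵥ* A = x) ↔ φ x = 0)
    (hB : ∀ x, x ᵥ* A = 0 → ∃ y, y ᵥ* B = x)
    {d : ℕ} (s : Fin d → G)
    (hs : Subgroup.closure (Set.range s) = ⊤) (hs2 : ¬ Function.Injective (FreeGroup.lift s)) :
    vd (harm (opM B) (opM A)) ≤ (d : ℝ) - 2 := by
  have hφ' := aug_of hφ A hA
  have h0 : ∀ F, opM B (opM A F) = 0 := by
    intro F
    rw [opM_eq_zero]
    intro k
    rw [pr_opM]
    have e : B k ᵥ* A = 0 := by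
      funext j
      exact congrFun (congrFun hBA k) j
    rw [e, pr_zero_left]
  rw [vd_harm_eq _ _ (opM_eqv A) h0]
  have h1 : vd (LinearMap.ker (opM A : EE G J →ₗ[ℂ] EE G L)) = 0 := by
    apply vd_ker_of_injective
    rw [injective_iff_map_eq_zero]
    intro F hF
    exact ker_zero hZ A φ hφ' hA F hF
  have h2 := ker_one hZ A B φ hφ' hA hB s hs hs2
  rw [Fintype.card_fin] at h2
  rw [h1]
  linarith

end

end Pool.Agent.N309.PD
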