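import Pool.Agent.N309.PD.Cone

set_option autoImplicit false
set_option linter.unusedSectionVars false

open scoped InnerProductSpace InnerProduct ENNReal
open scoped Matrix

/-! The Euler characteristic. -/

namespace Pool.Agent.N309.PD

open Pool.Agent.W649.ZL Pool.Agent.N309.LO

universe u

variable {G : Type u} [Group G]

/-- the Betti numbers -/
noncomputable def bt {r : ℕ → ℕ}
    (D : ∀ i, Matrix (Fin (r (i + 1))) (Fin (r i)) (MonoidAlgebra ℂ G)) : ℕ → ℝ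
  | 0 => vd (LinearMap.ker (opM (D 0) : EE G (Fin (r 0)) →ₗ[ℂ] EE G (Fin (r 1))))
  | (i + 1) => vd (harm (opM (D (i + 1))) (opM (D i)))

theorem bt_succ {r : ℕ → ℕ}
    (D : ∀ i, Matrix (Fin (r (i + 1))) (Fin (r i)) (MonoidAlgebra ℂ G))
    (comp : ∀ i, D (i + 1) * D i = 0) (i : ℕ) :
    bt D (i + 1) = vd (LinearMap.ker (opM (D (i + 1)) :
        EE G (Fin (r (i + 1))) →ₗ[ℂ] EE G (Fin (r (i + 2)))))
      + vd (LinearMap.ker (opM (D i) : EE G (Fin (r i)) →ₗ[ℂ] EE G (Fin (r (i + 1)))))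
      - (r i : ℝ) := by
  have h0 : ∀ F, opM (D (i + 1)) (opM (D i) F) = 0 := by
    intro F
    rw [opM_eq_zero]
    intro k
    rw [pr_opM]
    have e : D (i + 1) k ᵥ* D i = 0 := by
      funext j
      exact congrFun (congrFun (comp i) k) j
    rw [e, pr_zero_left]
  have h := vd_harm_eq _ _ (opM_eqv (D i)) h0
  rw [Fintype.card_fin] at h
  exact h

theorem euler_aux {r : ℕ → ℕ}
    (D : ∀ i, Matrix (Fin (r (i + 1))) (Fin (r i)) (MonoidAlgebra ℂ G))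
    (comp : ∀ i, D (i + 1) * D i = 0) (n : ℕ) :
    ∑ i ∈ Finset.range (n + 1), (-1 : ℝ) ^ i * bt D i
      = (-1 : ℝ) ^ n * vd (LinearMap.ker (opM (D n) :
        EE G (Fin (r n)) →ₗ[ℂ] EE G (Fin (r (n + 1)))))
      + ∑ i ∈ Finset.range n, (-1 : ℝ) ^ i * (r i : ℝ) := by
  induction n with
  | zero =>
    rw [Finset.sum_range_succ, Finset.sum_range_zero, Finset.sum_range_zero]
    change 0 + (-1 : ℝ) ^ 0 * vd _ = _
    ring
  | succ n ih =>
    rw [Finset.sum_range_succ, ih, bt_succ D comp, Finset.sum_range_succ _ n, pow_succ]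
    ring

/-- the Euler-Poincaré formula -/
theorem euler {r : ℕ → ℕ}
    (D : ∀ i, Matrix (Fin (r (i + 1))) (Fin (r i)) (MonoidAlgebra ℂ G))
    (comp : ∀ i, D (i + 1) * D i = 0) (n : ℕ) (hn : r (n + 1) = 0) :
    ∑ i ∈ Finset.range (n + 1), (-1 : ℝ) ^ i * bt D i
      = ∑ i ∈ Finset.range (n + 1), (-1 : ℝ) ^ i * (r i : ℝ) := by
  have h1 : LinearMap.ker (opM (D n) : EE G (Fin (r n)) →ₗ[ℂ] EE G (Fin (r (n + 1)))) = ⊤ := by
    rw [eq_top_iff]
    intro F _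
    change opM (D n) F = 0
    rw [opM_eq_zero]
    intro k
    have hk := k.2
    omega
  rw [euler_aux D comp, h1, vd_top, Fintype.card_fin, Finset.sum_range_succ _ n]
  ring

theorem bt_nonneg {r : ℕ → ℕ}
    (D : ∀ i, Matrix (Fin (r (i + 1))) (Fin (r i)) (MonoidAlgebra ℂ G)) (i : ℕ) : 0 ≤ bt D i := by
  cases i with
  | zero => exact vd_nonneg _
  | succ i => exact vd_nonneg _

theorem bt_one_le {r : ℕ → ℕ}
    (D : ∀ i, Matrix (Fin (r (i + 1))) (Fin (r i)) (MonoidAlgebra ℂ G))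
    (comp : ∀ i, D (i + 1) * D i = 0) (h0 : ∀ F, opM (D 0) F = 0 → F = 0) (c : ℝ)
    (h : vd (LinearMap.ker (opM (D 1) : EE G (Fin (r 1)) →ₗ[ℂ] EE G (Fin (r 2)))) ≤ (r 0 : ℝ) + c) :
    bt D 1 ≤ c := by
  rw [bt_succ D comp]
  have h1 : vd (LinearMap.ker (opM (D 0) : EE G (Fin (r 0)) →ₗ[ℂ] EE G (Fin (r 1)))) = 0 := by
    apply vd_ker_of_injective
    rw [injective_iff_map_eq_zero]
    exact h0
  rw [h1]
  change vd _ + 0 - (r 0 : ℝ) ≤ c
  linarith

theorem bt_zero {r : ℕ → ℕ}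
    (D : ∀ i, Matrix (Fin (r (i + 1))) (Fin (r i)) (MonoidAlgebra ℂ G))
    (h0 : ∀ F, opM (D 0) F = 0 → F = 0) : bt D 0 = 0 := by
  apply vd_ker_of_injective
  rw [injective_iff_map_eq_zero]
  exact h0

theorem bt_top {r : ℕ → ℕ}
    (D : ∀ i, Matrix (Fin (r (i + 1))) (Fin (r i)) (MonoidAlgebra ℂ G)) (m : ℕ)
    (h0 : ∀ F, opM (adjM (D m)) F = 0 → F = 0) : bt D (m + 1) = 0 := by
  have h1 : harm (opM (D (m + 1))) (opM (D m)) = ⊥ := by
    rw [eq_bot_iff]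
    rintro F ⟨_, hF⟩
    rw [ContinuousLinearMap.orthogonal_range, opM_adj] at hF
    rw [Submodule.mem_bot]
    exact h0 F hF
  change vd (harm (opM (D (m + 1))) (opM (D m))) = 0
  rw [h1, vd_bot]

theorem adj_mul_zero {J L M : ℕ} (A : Matrix (Fin L) (Fin J) (MonoidAlgebra ℂ G))
    (B : Matrix (Fin M) (Fin L) (MonoidAlgebra ℂ G)) (hBA : B * A = 0) : adjM A * adjM B = 0 := by
  funext j m
  change ∑ l, sig (A l j) * sig (B m l) = 0
  have h1 : ∀ l, sig (A l j) * sig (B m l) = sig (B m l * A l j) := fun l => (sig_mul _ _).symm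
  rw [Finset.sum_congr rfl fun l _ => h1 l, ← sig_sum]
  have h2 : ∑ l, B m l * A l j = 0 := congrFun (congrFun hBA m) j
  rw [h2, sig_zero]

theorem bt_cotop {r : ℕ → ℕ}
    (D : ∀ i, Matrix (Fin (r (i + 1))) (Fin (r i)) (MonoidAlgebra ℂ G))
    (comp : ∀ i, D (i + 1) * D i = 0) (m : ℕ)
    (h0 : ∀ F, opM (adjM (D (m + 1))) F = 0 → F = 0) (c : ℝ)
    (h : vd (LinearMap.ker (opM (adjM (D m)) :
      EE G (Fin (r (m + 1))) →ₗ[ℂ] EE G (Fin (r m)))) ≤ (r (m + 2) : ℝ) + c) :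
    bt D (m + 1) ≤ c := by
  change vd (harm (opM (D (m + 1))) (opM (D m))) ≤ c
  rw [harm_dual, opM_adj, opM_adj]
  have h2 : ∀ F, opM (adjM (D m)) (opM (adjM (D (m + 1))) F) = 0 := by
    intro F
    rw [opM_eq_zero]
    intro k
    rw [pr_opM]
    have e : adjM (D m) k ᵥ* adjM (D (m + 1)) = 0 := by
      funext j
      exact congrFun (congrFun (adj_mul_zero _ _ (comp m)) k) j
    rw [e, pr_zero_left]
  rw [vd_harm_eq _ _ (opM_eqv _) h2]
  have h1 : vd (LinearMap.ker (opM (adjM (D (m + 1))) :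
      EE G (Fin (r (m + 2))) →ₗ[ℂ] EE G (Fin (r (m + 1))))) = 0 := by
    apply vd_ker_of_injective
    rw [injective_iff_map_eq_zero]
    exact h0
  rw [h1, Fintype.card_fin]
  linarith

end Pool.Agent.N309.PD
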