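import Pool.Agent.N309.PD.Dual

set_option autoImplicit false
set_option linter.unusedSectionVars false

open scoped Matrix

/-! Groups with a duality complex of dimension at least two are not free. -/

namespace Pool.Agent.N309.PD

universe u v w z

variable {G : Type u} [Group G]

theorem fox_append {ι : Type*} [DecidableEq ι] (s : ι → G) (χ : G →* ℂ) (x : ι)
    (L M : List (ι × Bool)) :
    fox s χ x (L ++ M) = MonoidAlgebra.single (ev s L) 1 * fox s χ x M
      + χ (ev s M) • fox s χ x L := by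
  induction L with
  | nil =>
    rw [List.nil_append, ev_nil, ← MonoidAlgebra.one_def, one_mul, fox, smul_zero, add_zero]
  | cons y L ih =>
    rw [List.cons_append, fox, ih, ev_append, ev_cons, mul_add, ← mul_assoc,
      MonoidAlgebra.single_mul_single, one_mul, fox, smul_add, Algebra.mul_smul_comm, map_mul]
    have e : (if y.1 = x then cond y.2 (MonoidAlgebra.single 1 (χ (ev s L) * χ (ev s M)))
          (MonoidAlgebra.single (s x)⁻¹ (-(χ (s x)⁻¹ * (χ (ev s L) * χ (ev s M))))) else
          (0 : MonoidAlgebra ℂ G))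
        = χ (ev s M) • (if y.1 = x then cond y.2 (MonoidAlgebra.single 1 (χ (ev s L)))
          (MonoidAlgebra.single (s x)⁻¹ (-(χ (s x)⁻¹ * χ (ev s L)))) else 0) := by
      by_cases h : y.1 = x
      · rw [if_pos h, if_pos h]
        cases y.2
        · simp only [cond_false]
          rw [MonoidAlgebra.smul_single, smul_eq_mul]
          congr 1
          ring
        · simp only [cond_true]
          rw [MonoidAlgebra.smul_single, smul_eq_mul]
          congr 1
          ring
      · rw [if_neg h, if_neg h, smul_zero]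
    rw [e]
    abel

theorem fox_pair {ι : Type*} [DecidableEq ι] (s : ι → G) (χ : G →* ℂ) (x i : ι) (b : Bool) :
    fox s χ x [(i, b), (i, !b)] = 0 := by
  rw [fox, fox, fox, ev_cons, ev_nil]
  by_cases h : i = x
  · subst h
    cases b
    · simp only [cond_false, Bool.not_false, cond_true, if_true, mul_zero, zero_add, mul_one,
        map_one]
      rw [MonoidAlgebra.single_mul_single, mul_one, mul_one, chi_inv, ← MonoidAlgebra.single_add,
        add_neg_cancel, MonoidAlgebra.single_zero]
    · simp only [cond_false, Bool.not_true, cond_true, if_true, mul_zero, zero_add, mul_one,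
        map_one]
      rw [MonoidAlgebra.single_mul_single, mul_inv_cancel, one_mul, ← MonoidAlgebra.single_add,
        neg_add_cancel, MonoidAlgebra.single_zero]
  · simp only [if_neg h, mul_zero, add_zero]

theorem fox_step {ι : Type*} [DecidableEq ι] (s : ι → G) (χ : G →* ℂ) (x : ι)
    {L M : List (ι × Bool)} (h : FreeGroup.Red.Step L M) : fox s χ x L = fox s χ x M := by
  cases h with
  | @not L₁ L₂ i b =>
    have e : L₁ ++ (i, b) :: (i, !b) :: L₂ = L₁ ++ ([(i, b), (i, !b)] ++ L₂) := rfl
    have h1 : ev s [(i, b), (i, !b)] = 1 := by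
      rw [ev_cons, ev_cons, ev_nil]
      cases b <;> simp
    rw [e, fox_append, fox_append s χ x L₁ L₂, fox_append s χ x _ L₂, ev_append, h1, fox_pair,
      smul_zero, add_zero, one_mul, ← MonoidAlgebra.one_def, one_mul]

theorem fox_red {ι : Type*} [DecidableEq ι] (s : ι → G) (χ : G →* ℂ) (x : ι)
    {L M : List (ι × Bool)} (h : FreeGroup.Red L M) : fox s χ x L = fox s χ x M := by
  induction h with
  | refl => rfl
  | tail _ h2 ih => rw [ih, fox_step s χ x h2]

/-- Fox derivatives on a free group -/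
theorem exists_deriv {ι : Type*} [DecidableEq ι] (s : ι → G) (χ : G →* ℂ)
    (hs : Function.Bijective (FreeGroup.lift s)) (x : ι) :
    ∃ D : G → MonoidAlgebra ℂ G,
      (∀ g h, D (g * h) = MonoidAlgebra.single g 1 * D h + χ h • D g) ∧
      ∀ i, D (s i) = if i = x then 1 else 0 := by
  let e : FreeGroup ι ≃* G := MulEquiv.ofBijective (FreeGroup.lift s) hs
  have he : ∀ w : FreeGroup ι, ev s w.toWord = e w := by
    intro w
    rw [← ev_lift, FreeGroup.mk_toWord]
    rfl
  refine ⟨fun g => fox s χ x (e.symm g).toWord, ?_, ?_⟩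
  · intro g h
    change fox s χ x (e.symm (g * h)).toWord = _
    rw [map_mul, FreeGroup.toWord_mul, ← fox_red s χ x FreeGroup.reduce.red, fox_append, he, he,
      MulEquiv.apply_symm_apply, MulEquiv.apply_symm_apply]
  · intro i
    have h1 : e.symm (s i) = FreeGroup.of i := by
      rw [MulEquiv.symm_apply_eq]
      change s i = FreeGroup.lift s (FreeGroup.of i)
      rw [FreeGroup.lift_apply_of]
    change fox s χ x (e.symm (s i)).toWord = _
    rw [h1, FreeGroup.toWord_of, fox, fox, ev_nil, mul_zero, zero_add, map_one]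
    rfl

/-- independence -/
theorem indep {ι : Type*} [DecidableEq ι] [Fintype ι] (s : ι → G) (χ : G →* ℂ)
    (hs : Function.Bijective (FreeGroup.lift s)) (c : ι → MonoidAlgebra ℂ G)
    (hc : ∑ i, c i * (MonoidAlgebra.single (s i) 1 - MonoidAlgebra.single 1 (χ (s i))) = 0) :
    c = 0 := by
  funext x
  obtain ⟨D, hD1, hD2⟩ := exists_deriv s χ hs x
  let T : MonoidAlgebra ℂ G → MonoidAlgebra ℂ G := fun α => α.coeff.sum fun g a => a • D g
  have hTadd : ∀ α β, T (α + β) = T α + T β := by
    intro α β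
    change (α + β).coeff.sum (fun g a => a • D g) = _
    rw [MonoidAlgebra.coeff_add, Finsupp.sum_add_index']
    · intro g; rw [zero_smul]
    · intro g a b; rw [add_smul]
  have hTs : ∀ g a, T (MonoidAlgebra.single g a) = a • D g := by
    intro g a
    change (MonoidAlgebra.single g a : MonoidAlgebra ℂ G).coeff.sum (fun g a => a • D g) = _
    rw [MonoidAlgebra.coeff_single, Finsupp.sum_single_index]
    rw [zero_smul]
  have hT0 : T 0 = 0 := by
    change (0 : MonoidAlgebra ℂ G).coeff.sum (fun g a => a • D g) = 0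
    rw [MonoidAlgebra.coeff_zero, Finsupp.sum_zero_index]
  let TH : MonoidAlgebra ℂ G →+ MonoidAlgebra ℂ G := ⟨⟨T, hT0⟩, hTadd⟩
  have hTsub : ∀ α β, T (α - β) = T α - T β := fun α β => map_sub TH α β
  have key : ∀ (i : ι) (α : MonoidAlgebra ℂ G),
      T (α * (MonoidAlgebra.single (s i) 1 - MonoidAlgebra.single 1 (χ (s i))))
        = if i = x then α else 0 := by
    intro i α
    induction α using MonoidAlgebra.induction_linear with
    | zero => rw [zero_mul, hT0]; simp
    | add a b ha hb =>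
      rw [add_mul, hTadd, ha, hb]
      by_cases h : i = x
      · rw [if_pos h, if_pos h, if_pos h]
      · rw [if_neg h, if_neg h, if_neg h, add_zero]
    | single g a =>
      rw [mul_sub, MonoidAlgebra.single_mul_single, MonoidAlgebra.single_mul_single, hTsub, hTs,
        hTs, hD1, hD2, mul_one, mul_one, smul_add, mul_smul, add_sub_cancel_right]
      by_cases h : i = x
      · rw [if_pos h, if_pos h, mul_one, MonoidAlgebra.smul_single, smul_eq_mul, mul_one]
      · rw [if_neg h, if_neg h, mul_zero, smul_zero]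
  have h1 : T (∑ i, c i * (MonoidAlgebra.single (s i) 1 - MonoidAlgebra.single 1 (χ (s i)))) = 0 := by
    rw [hc, hT0]
  have h2 : TH (∑ i, c i * (MonoidAlgebra.single (s i) 1 - MonoidAlgebra.single 1 (χ (s i)))) = 0 :=
    h1
  rw [map_sum] at h2
  have h3 : ∀ i, TH (c i * (MonoidAlgebra.single (s i) 1 - MonoidAlgebra.single 1 (χ (s i))))
      = if i = x then c i else 0 := fun i => key i (c i)
  rw [Finset.sum_congr rfl fun i _ => h3 i, Finset.sum_ite_eq', if_pos (Finset.mem_univ _)] at h2
  exact h2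

section
variable {J : Type v} [Fintype J] [DecidableEq J] {L : Type w} [Fintype L]
  [DecidableEq L] {M : Type z} [Fintype M] [DecidableEq M]

theorem rows_of_exact {K : Type*} [Fintype K] (D : Matrix L J (MonoidAlgebra ℂ G))
    (D' : Matrix M L (MonoidAlgebra ℂ G))
    (h : ∀ x, x ᵥ* D = 0 → ∃ y, y ᵥ* D' = x) (N : Matrix K L (MonoidAlgebra ℂ G))
    (hN : N * D = 0) : ∃ S : Matrix K M (MonoidAlgebra ℂ G), S * D' = N := by
  have h1 : ∀ k, ∃ y, y ᵥ* D' = N k := by
    intro k
    apply h
    funext j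
    exact congrFun (congrFun hN k) j
  choose S hS using h1
  refine ⟨fun k => S k, ?_⟩
  funext k l
  exact congrFun (hS k) l

/-- the splitting in degree one for a free group -/
theorem split_one (A : Matrix L J (MonoidAlgebra ℂ G)) (B : Matrix M L (MonoidAlgebra ℂ G))
    (hBA : B * A = 0) (φ : (J → MonoidAlgebra ℂ G) →ₗ[ℂ] ℂ) (hφ : Aug φ)
    (hA : ∀ x, (∃ y, y ᵥ* A = x) ↔ φ x = 0)
    (hB : ∀ x, x ᵥ* A = 0 → ∃ y, y ᵥ* B = x)
    {ι : Type*} [Fintype ι] [DecidableEq ι] (s : ι → G)
    (hs : Subgroup.closure (Set.range s) = ⊤) (hs2 : Function.Bijective (FreeGroup.lift s)) :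
    ∃ S : Matrix L M (MonoidAlgebra ℂ G), B * S * B = B := by
  classical
  obtain ⟨χ, hχ⟩ := hφ.exists_char
  obtain ⟨j0, hj0⟩ : ∃ j, φ (Pi.single j 1) ≠ 0 := by
    by_contra hcon
    push Not at hcon
    apply hφ.ne
    apply LinearMap.ext
    intro x
    rw [phi_eq χ hχ x]
    apply Finset.sum_eq_zero
    intro j _
    rw [hcon, mul_zero]
  set n : J → ℂ := fun j => φ (Pi.single j 1) with hn
  -- generators
  set U : ι → J → MonoidAlgebra ℂ G := fun i => Pi.single j0
    (MonoidAlgebra.single (s i) 1 - MonoidAlgebra.single 1 (χ (s i))) with hU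
  set V : {j : J // j ≠ j0} → J → MonoidAlgebra ℂ G := fun j => Pi.single j.1 1
    - Pi.single j0 (MonoidAlgebra.single 1 (n j.1 / n j0)) with hV
  set W : Matrix (ι ⊕ {j : J // j ≠ j0}) J (MonoidAlgebra ℂ G) := fun k => Sum.elim U V k with hW
  have hUφ : ∀ i, φ (U i) = 0 := by
    intro i
    rw [hU]
    change φ (Pi.single j0 _) = 0
    rw [phi_single χ hχ, map_sub, chi_single, chi_single, map_one, one_mul, mul_one, sub_self,
        zero_mul]
  have hVφ : ∀ j, φ (V j) = 0 := by
    intro j
    rw [hV]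
    change φ (Pi.single j.1 1 - Pi.single j0 _) = 0
    rw [map_sub, phi_single χ hχ j0, chi_single, map_one, mul_one]
    change n j.1 - n j.1 / n j0 * n j0 = 0
    rw [div_mul_cancel₀ _ hj0, sub_self]
  have hWφ : ∀ k, ∃ y, y ᵥ* A = W k := by
    intro k
    apply (hA _).2
    rcases k with i | j
    · exact hUφ i
    · exact hVφ j
  choose XY hXY using hWφ
  -- the sum over the second kind of generators
  have hWl : ∀ (p : ι ⊕ {j : J // j ≠ j0} → MonoidAlgebra ℂ G) (l : J),
      (p ᵥ* W) l = (∑ i, p (Sum.inl i) * (Pi.single j0 (MonoidAlgebra.single (s i) 1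
          - MonoidAlgebra.single 1 (χ (s i))) : J → MonoidAlgebra ℂ G) l)
        + ∑ j : {j : J // j ≠ j0}, p (Sum.inr j) * ((Pi.single j.1 1 : J → MonoidAlgebra ℂ G) l
            - (Pi.single j0 (MonoidAlgebra.single 1 (n j.1 / n j0)) : J → MonoidAlgebra ℂ G) l) := by
    intro p l
    change ∑ k, p k * W k l = _
    rw [Fintype.sum_sum_type]
    rfl
  have hoff : ∀ (p : ι ⊕ {j : J // j ≠ j0} → MonoidAlgebra ℂ G) (l : J) (h : l ≠ j0),
      (p ᵥ* W) l = p (Sum.inr ⟨l, h⟩) := by
    intro p l h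
    rw [hWl]
    have h7 : ∑ i, p (Sum.inl i) * (Pi.single j0 (MonoidAlgebra.single (s i) 1
          - MonoidAlgebra.single 1 (χ (s i))) : J → MonoidAlgebra ℂ G) l = 0 := by
      apply Finset.sum_eq_zero
      intro i _
      rw [Pi.single_eq_of_ne h, mul_zero]
    rw [h7, zero_add, Finset.sum_eq_single (⟨l, h⟩ : {j : J // j ≠ j0})]
    · rw [Pi.single_eq_same, Pi.single_eq_of_ne h, sub_zero, mul_one]
    · intro j _ hj
      have h8 : l ≠ j.1 := fun h' => hj (Subtype.ext h'.symm)
      rw [Pi.single_eq_of_ne h8, Pi.single_eq_of_ne h, sub_zero, mul_zero]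
    · intro h'
      exact absurd (Finset.mem_univ _) h'
  -- generation
  have hgen : ∀ x : J → MonoidAlgebra ℂ G, φ x = 0 → ∃ p, p ᵥ* W = x := by
    intro x h1
    set r : MonoidAlgebra ℂ G := x j0 + ∑ j : {j : J // j ≠ j0},
      x j.1 * MonoidAlgebra.single 1 (n j.1 / n j0) with hr
    have h2 : chi χ r = 0 := by
      rw [phi_eq χ hχ x, ← Finset.add_sum_erase _ _ (Finset.mem_univ j0)] at h1
      have h3 : chi χ r * n j0 = 0 := by
        rw [hr, map_add, map_sum, add_mul, Finset.sum_mul]
        have h4 : ∀ j : {j : J // j ≠ j0}, chi χ (x j.1 * MonoidAlgebra.single 1 (n j.1 / n j0))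
            * n j0 = chi χ (x j.1) * n j.1 := by
          intro j
          rw [map_mul, chi_single, map_one, mul_one, mul_assoc, div_mul_cancel₀ _ hj0]
        rw [Finset.sum_congr rfl fun j _ => h4 j]
        rw [← h1]
        congr 1
        symm
        apply Finset.sum_subtype
        intro j
        simp
      exact (mul_eq_zero.1 h3).resolve_right hj0
    obtain ⟨d, hd⟩ := mem_ideal s hs χ r h2
    refine ⟨Sum.elim d (fun j => x j.1), ?_⟩
    funext l
    by_cases h : l = j0
    · subst h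
      rw [hWl]
      simp only [Pi.single_eq_same, Sum.elim_inl, Sum.elim_inr]
      rw [hd]
      have h6 : ∀ j : {j : J // j ≠ l}, x j.1 * ((Pi.single j.1 1 : J → MonoidAlgebra ℂ G) l
          - MonoidAlgebra.single 1 (n j.1 / n l))
          = - (x j.1 * MonoidAlgebra.single 1 (n j.1 / n l)) := by
        intro j
        rw [Pi.single_eq_of_ne (fun h => j.2 h.symm), zero_sub, mul_neg]
      rw [Finset.sum_congr rfl fun j _ => h6 j, Finset.sum_neg_distrib, hr]
      abel
    · rw [hoff _ l h]
      rfl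
  -- independence
  have hind : ∀ p : ι ⊕ {j : J // j ≠ j0} → MonoidAlgebra ℂ G, p ᵥ* W = 0 → p = 0 := by
    intro p hp
    have h1 : ∀ j : {j : J // j ≠ j0}, p (Sum.inr j) = 0 := by
      intro j
      have h2 := congrFun hp j.1
      rw [hoff p j.1 j.2] at h2
      exact h2
    have h3 : (fun i => p (Sum.inl i)) = 0 := by
      apply indep s χ hs2
      have h2 := congrFun hp j0
      rw [hWl] at h2
      simp only [Pi.single_eq_same, h1, zero_mul, Finset.sum_const_zero, add_zero] at h2
      exact h2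
    funext k
    rcases k with i | j
    · exact congrFun h3 i
    · exact h1 j
  -- the section
  have hp : ∀ l : L, ∃ p, p ᵥ* W = A l := by
    intro l
    apply hgen
    apply (hA _).1
    refine ⟨Pi.single l 1, ?_⟩
    rw [Matrix.single_one_vecMul]
    rfl
  choose P hP using hp
  set P' : Matrix L (ι ⊕ {j : J // j ≠ j0}) (MonoidAlgebra ℂ G) := fun l => P l with hP'
  set XY' : Matrix (ι ⊕ {j : J // j ≠ j0}) L (MonoidAlgebra ℂ G) := fun k => XY k with hXY'
  have e1 : XY' * A = W := by
    funext k j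
    exact congrFun (hXY k) j
  have e2 : P' * W = A := by
    funext l j
    exact congrFun (hP l) j
  obtain ⟨S, hS⟩ := rows_of_exact A B hB (1 - P' * XY') (by
    rw [Matrix.sub_mul, Matrix.one_mul, Matrix.mul_assoc, e1, e2, sub_self])
  refine ⟨S, ?_⟩
  rw [Matrix.mul_assoc, hS, Matrix.mul_sub, Matrix.mul_one]
  have e3 : B * P' = 0 := by
    funext m
    apply hind
    have e4 : B * P' * W = 0 := by rw [Matrix.mul_assoc, e2, hBA]
    funext j
    exact congrFun (congrFun e4 m) j
  rw [← Matrix.mul_assoc, e3, Matrix.zero_mul, sub_zero]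

end

/-- a free group has no duality complex of dimension at least two -/
theorem not_free (r : ℕ → ℕ)
    (D : ∀ i, Matrix (Fin (r (i + 1))) (Fin (r i)) (MonoidAlgebra ℂ G))
    (comp : ∀ i, D (i + 1) * D i = 0)
    (exact : ∀ i (x : Fin (r (i + 1)) → MonoidAlgebra ℂ G), x ᵥ* D i = 0 →
      ∃ y, y ᵥ* D (i + 1) = x)
    (φ : (Fin (r 0) → MonoidAlgebra ℂ G) →ₗ[ℂ] ℂ) (hφ : φ ≠ 0)
    (hA : ∀ x, (∃ y, y ᵥ* D 0 = x) ↔ φ x = 0) (m : ℕ) (hm : r (m + 3) = 0)
    (ψ : (Fin (r (m + 2)) → MonoidAlgebra ℂ G) →ₗ[ℂ] ℂ) (hψ : ψ ≠ 0)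
    (hψ2 : ∀ x, (∃ y, D (m + 1) *ᵥ y = x) ↔ ψ x = 0)
    {ι : Type*} [Fintype ι] [DecidableEq ι] (s : ι → G)
    (hs : Subgroup.closure (Set.range s) = ⊤) : ¬ Function.Injective (FreeGroup.lift s) := by
  intro hinj
  have hsurj : Function.Surjective (FreeGroup.lift s) := by
    rw [← MonoidHom.range_eq_top, FreeGroup.range_lift_eq_closure, hs]
  have hQ : ∀ i, ∃ S : Matrix (Fin (r (i + 1))) (Fin (r (i + 2))) (MonoidAlgebra ℂ G),
      D (i + 1) * S * D (i + 1) = D (i + 1) := by
    intro i
    induction i with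
    | zero =>
      exact split_one (D 0) (D 1) (comp 0) φ (aug_of hφ _ hA) hA (exact 0) s hs ⟨hinj, hsurj⟩
    | succ i ih =>
      obtain ⟨S, hS⟩ := ih
      obtain ⟨T, hT⟩ := rows_of_exact (D (i + 1)) (D (i + 2)) (exact (i + 1))
        (1 - D (i + 1) * S) (by rw [Matrix.sub_mul, Matrix.one_mul, hS, sub_self])
      refine ⟨T, ?_⟩
      rw [Matrix.mul_assoc, hT, Matrix.mul_sub, Matrix.mul_one, ← Matrix.mul_assoc, comp,
        Matrix.zero_mul, sub_zero]
  obtain ⟨S, hS⟩ := hQ m
  obtain ⟨T, hT⟩ := rows_of_exact (D (m + 1)) (D (m + 2)) (exact (m + 1))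
    (1 - D (m + 1) * S) (by rw [Matrix.sub_mul, Matrix.one_mul, hS, sub_self])
  have h0 : T * D (m + 2) = 0 := by
    funext i j
    change ∑ k, T i k * D (m + 2) k j = 0
    apply Finset.sum_eq_zero
    intro k _
    have hk := k.2
    have hr : r (m + 2 + 1) = 0 := hm
    omega
  rw [h0] at hT
  have h1 : D (m + 1) * S = 1 := (sub_eq_zero.1 hT.symm).symm
  apply hψ
  apply LinearMap.ext
  intro x
  apply (hψ2 x).1
  refine ⟨S *ᵥ x, ?_⟩
  rw [Matrix.mulVec_mulVec, h1, Matrix.one_mulVec]

end Pool.Agent.N309.PD
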