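import Pool.Agent.N309.LO.Betti

set_option autoImplicit false
set_option linter.unusedSectionVars false

open scoped InnerProductSpace InnerProduct ENNReal
open scoped Matrix

/-! Matrices over the group algebra as operators. -/

namespace Pool.Agent.N309.PD

open Pool.Agent.W649.ZL Pool.Agent.N309.LO

universe u v w z

section
variable {G : Type u} [Group G]

/-- left translations as a homomorphism -/
noncomputable def trHom : G →* (EE G Unit →L[ℂ] EE G Unit) where
  toFun := fun g => Ltr g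
  map_one' := Ltr_one
  map_mul' := fun s t => Ltr_mul s t

/-- the left regular representation of the group algebra -/
noncomputable def Lam : MonoidAlgebra ℂ G →ₐ[ℂ] (EE G Unit →L[ℂ] EE G Unit) :=
  MonoidAlgebra.lift ℂ _ G trHom

theorem Lam_eq (α : MonoidAlgebra ℂ G) : Lam α = cop α.coeff := by
  unfold Lam
  rw [MonoidAlgebra.lift_apply]
  unfold cop
  rw [Finsupp.linearCombination_apply]
  rfl

theorem Lam_eqv (α : MonoidAlgebra ℂ G) : Eqv (Lam α) := by
  rw [Lam_eq]; exact cop_eqv _

theorem Lam_apply (α : MonoidAlgebra ℂ G) (f : EE G Unit) (x : G) :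
    Lam α f (x, ()) = ∑ k ∈ α.coeff.support, α.coeff k * f (k⁻¹ * x, ()) := by
  rw [Lam_eq, cop_apply]

theorem Lam_dl (α : MonoidAlgebra ℂ G) (s g : G) :
    Lam α (dl (s, ())) (g, ()) = α.coeff (g * s⁻¹) := by
  classical
  rw [Lam_apply]
  have h1 : ∀ k ∈ α.coeff.support, α.coeff k * (dl (s, ()) : EE G Unit) (k⁻¹ * g, ())
      = if k = g * s⁻¹ then α.coeff (g * s⁻¹) else 0 := by
    intro k _
    by_cases h : k = g * s⁻¹
    · rw [if_pos h, h]
      have e : (((g * s⁻¹)⁻¹ * g, ()) : G × Unit) = (s, ()) := by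
        rw [mul_inv_rev, inv_inv, inv_mul_cancel_right]
      rw [e, dl_apply_self, mul_one]
    · rw [if_neg h, dl_apply_ne, mul_zero]
      intro h2
      apply h
      have h3 : k⁻¹ * g = s := congrArg Prod.fst h2
      rw [← h3, mul_inv_rev, inv_inv, mul_inv_cancel_left]
  rw [Finset.sum_congr rfl h1, Finset.sum_ite_eq']
  by_cases h : g * s⁻¹ ∈ α.coeff.support
  · rw [if_pos h]
  · rw [if_neg h]
    exact (Finsupp.notMem_support_iff.1 h).symm

theorem Lam_injective : Function.Injective (Lam : MonoidAlgebra ℂ G → _) := by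
  intro α β h
  apply MonoidAlgebra.coeff_injective
  ext g
  have h1 := Lam_dl α 1 g
  have h2 := Lam_dl β 1 g
  rw [h, h2, inv_one, mul_one] at h1
  exact h1.symm

/-- the involution of the group algebra -/
noncomputable def sig (α : MonoidAlgebra ℂ G) : MonoidAlgebra ℂ G :=
  MonoidAlgebra.ofCoeff (Finsupp.mapRange (starRingEnd ℂ) (map_zero _)
    (Finsupp.equivMapDomain (Equiv.inv G) α.coeff))

theorem sig_coeff (α : MonoidAlgebra ℂ G) (k : G) :
    (sig α).coeff k = (starRingEnd ℂ) (α.coeff k⁻¹) := rfl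

/-- operators which agree on basis vectors are equal -/
theorem ext_dl {J : Type v} {I : Type w} [Fintype J] [DecidableEq J] (S T : EE G J →L[ℂ] EE G I)
    (h : ∀ x y, S (dl x) y = T (dl x) y) : S = T := by
  have htop : LinearMap.ker ((S - T : EE G J →L[ℂ] EE G I) : EE G J →ₗ[ℂ] EE G I) = ⊤ := by
    apply eq_top_of_dl _ (ContinuousLinearMap.isClosed_ker (S - T))
    intro x
    change (S - T) (dl x) = 0
    rw [sub_apply, sub_eq_zero]
    ext y
    exact h x y
  ext1 F
  have : F ∈ LinearMap.ker ((S - T : EE G J →L[ℂ] EE G I) : EE G J →ₗ[ℂ] EE G I) := by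
    rw [htop]; trivial
  have h2 : (S - T) F = 0 := this
  rwa [sub_apply, sub_eq_zero] at h2

theorem adj_dl {J : Type v} {I : Type w} (T : EE G J →L[ℂ] EE G I) (x : G × J) (y : G × I) :
    ContinuousLinearMap.adjoint T (dl y) x = (starRingEnd ℂ) (T (dl x) y) := by
  rw [← inner_dl_left x, ContinuousLinearMap.adjoint_inner_right, inner_dl_right]

theorem Lam_adj (α : MonoidAlgebra ℂ G) :
    ContinuousLinearMap.adjoint (Lam α) = Lam (sig α) := by
  apply ext_dl
  rintro ⟨g, ⟨⟩⟩ ⟨s, ⟨⟩⟩
  rw [adj_dl, Lam_dl, Lam_dl, sig_coeff, mul_inv_rev, inv_inv]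

theorem sig_mul (α β : MonoidAlgebra ℂ G) : sig (α * β) = sig β * sig α := by
  apply Lam_injective
  rw [← Lam_adj, map_mul Lam α β, map_mul Lam (sig β) (sig α), ← Lam_adj, ← Lam_adj]
  exact ContinuousLinearMap.adjoint_comp _ _

theorem sig_sig (α : MonoidAlgebra ℂ G) : sig (sig α) = α := by
  apply MonoidAlgebra.coeff_injective
  ext g
  rw [sig_coeff, sig_coeff, inv_inv, Complex.conj_conj]

theorem sig_add (α β : MonoidAlgebra ℂ G) : sig (α + β) = sig α + sig β := by
  apply MonoidAlgebra.coeff_injective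
  ext g
  rw [MonoidAlgebra.coeff_add, Finsupp.add_apply, sig_coeff, sig_coeff, sig_coeff,
    MonoidAlgebra.coeff_add, Finsupp.add_apply, map_add]

theorem sig_smul (c : ℂ) (α : MonoidAlgebra ℂ G) :
    sig (c • α) = (starRingEnd ℂ) c • sig α := by
  apply MonoidAlgebra.coeff_injective
  ext g
  rw [sig_coeff, MonoidAlgebra.coeff_smul_apply, MonoidAlgebra.coeff_smul_apply, sig_coeff,
    smul_eq_mul, smul_eq_mul, map_mul]

theorem sig_zero : sig (0 : MonoidAlgebra ℂ G) = 0 := by
  have h := sig_smul (0 : ℂ) (0 : MonoidAlgebra ℂ G)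
  rwa [zero_smul, map_zero, zero_smul] at h

/-- `sig` as an additive homomorphism -/
noncomputable def sigH : MonoidAlgebra ℂ G →+ MonoidAlgebra ℂ G where
  toFun := sig
  map_zero' := sig_zero
  map_add' := sig_add

theorem sig_sum {ι : Type*} (s : Finset ι) (f : ι → MonoidAlgebra ℂ G) :
    sig (∑ i ∈ s, f i) = ∑ i ∈ s, sig (f i) := map_sum sigH f s

end

section
variable {G : Type u} [Group G] {J : Type v} [Fintype J] [DecidableEq J] {I : Type w} [Fintype I]
  [DecidableEq I]

/-- the `j`-th component -/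
noncomputable def cmp (j : J) : EE G J →L[ℂ] EE G Unit := elem (1 : G) () j

/-- the inclusion of the `j`-th component -/
noncomputable def inj (j : J) : EE G Unit →L[ℂ] EE G J := elem (1 : G) j ()

theorem cmp_apply (j : J) (F : EE G J) (x : G) : cmp j F (x, ()) = F (x, j) := by
  unfold cmp
  rw [elem_apply, if_pos rfl, inv_one, one_mul]

theorem inj_apply (j : J) (f : EE G Unit) (x : G × J) :
    inj j f x = if x.2 = j then f (x.1, ()) else 0 := by
  unfold inj
  rw [elem_apply, inv_one, one_mul]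

theorem ext_unit {f g : EE G Unit} (h : ∀ x, f (x, ()) = g (x, ())) : f = g := by
  ext ⟨x, ⟨⟩⟩
  exact h x

theorem cmp_inj (i j : J) (f : EE G Unit) : cmp i (inj j f) = if i = j then f else 0 := by
  apply ext_unit
  intro x
  rw [cmp_apply, inj_apply]
  change (if i = j then f (x, ()) else 0) = _
  by_cases h : i = j
  · rw [if_pos h, if_pos h]
  · rw [if_neg h, if_neg h]
    rfl

theorem ext_cmp {F H : EE G J} (h : ∀ j, cmp j F = cmp j H) : F = H := by
  ext ⟨x, j⟩
  rw [← cmp_apply j F x, h, cmp_apply]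

/-- the pairing with a row vector -/
noncomputable def pr (x : J → MonoidAlgebra ℂ G) (F : EE G J) : EE G Unit :=
  ∑ j, Lam (x j) (cmp j F)

theorem pr_zero_left (F : EE G J) : pr (0 : J → MonoidAlgebra ℂ G) F = 0 := by
  unfold pr
  apply Finset.sum_eq_zero
  intro j _
  rw [Pi.zero_apply, map_zero]
  rfl

theorem pr_add_left (x y : J → MonoidAlgebra ℂ G) (F : EE G J) :
    pr (x + y) F = pr x F + pr y F := by
  unfold pr
  rw [← Finset.sum_add_distrib]
  refine Finset.sum_congr rfl fun j _ => ?_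
  rw [Pi.add_apply, map_add]
  rfl

theorem pr_zero_right (x : J → MonoidAlgebra ℂ G) : pr x (0 : EE G J) = 0 := by
  unfold pr
  apply Finset.sum_eq_zero
  intro j _
  rw [map_zero, map_zero]

theorem pr_single (j : J) (α : MonoidAlgebra ℂ G) (F : EE G J) :
    pr (Pi.single j α) F = Lam α (cmp j F) := by
  unfold pr
  rw [Finset.sum_eq_single j]
  · rw [Pi.single_eq_same]
  · intro i _ hi
    rw [Pi.single_eq_of_ne hi, map_zero]
    rfl
  · intro h
    exact absurd (Finset.mem_univ j) h

/-- the operator of a matrix -/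
noncomputable def opM (D : Matrix I J (MonoidAlgebra ℂ G)) : EE G J →L[ℂ] EE G I :=
  ∑ i, (inj i).comp (∑ j, (Lam (D i j)).comp (cmp j))

theorem sumCLM {ι : Type*} {K : Type*} {L : Type*} (s : Finset ι)
    (f : ι → EE G K →L[ℂ] EE G L) (F : EE G K) : (∑ i ∈ s, f i) F = ∑ i ∈ s, f i F := by
  classical
  induction s using Finset.induction_on with
  | empty => simp
  | insert a s ha ih =>
    rw [Finset.sum_insert ha, Finset.sum_insert ha, ← ih]
    rfl

theorem opM_eq (D : Matrix I J (MonoidAlgebra ℂ G)) (F : EE G J) :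
    opM D F = ∑ i, inj i (pr (D i) F) := by
  unfold opM
  rw [sumCLM]
  refine Finset.sum_congr rfl fun i _ => ?_
  rw [ContinuousLinearMap.comp_apply, sumCLM]
  rfl

theorem cmp_opM (D : Matrix I J (MonoidAlgebra ℂ G)) (F : EE G J) (i : I) :
    cmp i (opM D F) = pr (D i) F := by
  rw [opM_eq, map_sum, Finset.sum_congr rfl fun i' _ => cmp_inj i i' _, Finset.sum_ite_eq,
    if_pos (Finset.mem_univ i)]

theorem opM_eq_zero (D : Matrix I J (MonoidAlgebra ℂ G)) (F : EE G J) :
    opM D F = 0 ↔ ∀ i, pr (D i) F = 0 := by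
  constructor
  · intro h i
    rw [← cmp_opM, h, map_zero]
  · intro h
    apply ext_cmp
    intro i
    rw [cmp_opM, h, map_zero]

theorem pr_opM (x : I → MonoidAlgebra ℂ G) (D : Matrix I J (MonoidAlgebra ℂ G)) (F : EE G J) :
    pr x (opM D F) = pr (x ᵥ* D) F := by
  unfold pr
  have h1 : ∀ i, Lam (x i) (cmp i (opM D F)) = ∑ j, Lam (x i * D i j) (cmp j F) := by
    intro i
    rw [cmp_opM]
    unfold pr
    rw [map_sum]
    refine Finset.sum_congr rfl fun j _ => ?_
    rw [map_mul]
    rfl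
  rw [Finset.sum_congr rfl fun i _ => h1 i, Finset.sum_comm]
  refine Finset.sum_congr rfl fun j _ => ?_
  have h2 : (x ᵥ* D) j = ∑ i, x i * D i j := rfl
  rw [h2, map_sum, sumCLM]

theorem opM_eqv (D : Matrix I J (MonoidAlgebra ℂ G)) : Eqv (opM D) := by
  intro k F
  rw [opM_eq, opM_eq]
  have h1 : ∀ j : J, cmp j (tr k F) = tr k (cmp j F) := fun j => elem_eqv (1 : G) () j k F
  have h2 : ∀ i, pr (D i) (tr k F) = tr k (pr (D i) F) := by
    intro i
    unfold pr
    have h3 : ∀ j, Lam (D i j) (cmp j (tr k F)) = tr k (Lam (D i j) (cmp j F)) := by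
      intro j
      rw [h1]
      exact Lam_eqv _ _ _
    rw [Finset.sum_congr rfl fun j _ => h3 j]
    ext x
    rw [sum_apply_EE, tr_apply, sum_apply_EE]
    rfl
  have h4 : ∀ i, inj i (pr (D i) (tr k F)) = tr k (inj i (pr (D i) F)) := by
    intro i
    rw [h2]
    exact elem_eqv (1 : G) i () k _
  rw [Finset.sum_congr rfl fun i _ => h4 i]
  ext x
  rw [sum_apply_EE, tr_apply, sum_apply_EE]
  rfl

theorem pr_dl (x : J → MonoidAlgebra ℂ G) (s g : G) (j : J) :
    pr x (dl (s, j)) (g, ()) = (x j).coeff (g * s⁻¹) := by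
  unfold pr
  rw [sum_apply_EE, Finset.sum_eq_single j]
  · have h1 : cmp j (dl (s, j)) = (dl (s, ()) : EE G Unit) := by
      apply ext_unit
      intro y
      rw [cmp_apply]
      by_cases h : y = s
      · rw [h, dl_apply_self, dl_apply_self]
      · rw [dl_apply_ne, dl_apply_ne]
        · intro h2; exact h (congrArg Prod.fst h2)
        · intro h2; exact h (congrArg Prod.fst h2)
    rw [h1, Lam_dl]
  · intro i _ hi
    have h1 : cmp i (dl (s, j)) = (0 : EE G Unit) := by
      apply ext_unit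
      intro y
      rw [cmp_apply, dl_apply_ne]
      · rfl
      · intro h2; exact hi (congrArg Prod.snd h2)
    rw [h1, map_zero]
    rfl
  · intro h
    exact absurd (Finset.mem_univ j) h

theorem opM_dl (D : Matrix I J (MonoidAlgebra ℂ G)) (s g : G) (j : J) (i : I) :
    opM D (dl (s, j)) (g, i) = (D i j).coeff (g * s⁻¹) := by
  rw [← cmp_apply, cmp_opM, pr_dl]

/-- the adjoint matrix -/
noncomputable def adjM (D : Matrix I J (MonoidAlgebra ℂ G)) : Matrix J I (MonoidAlgebra ℂ G) :=
  fun j i => sig (D i j)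

theorem opM_adj (D : Matrix I J (MonoidAlgebra ℂ G)) :
    ContinuousLinearMap.adjoint (opM D) = opM (adjM D) := by
  apply ext_dl
  rintro ⟨g, i⟩ ⟨s, j⟩
  rw [adj_dl, opM_dl, opM_dl]
  unfold adjM
  rw [sig_coeff, mul_inv_rev, inv_inv]

theorem vecMul_adjM (D : Matrix I J (MonoidAlgebra ℂ G)) (x : J → MonoidAlgebra ℂ G) :
    x ᵥ* adjM D = fun i => sig ((D *ᵥ fun j => sig (x j)) i) := by
  funext i
  have h1 : (D *ᵥ fun j => sig (x j)) i = ∑ j, D i j * sig (x j) := rfl
  rw [h1, sig_sum]
  change ∑ j, x j * adjM D j i = _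
  refine Finset.sum_congr rfl fun j _ => ?_
  rw [sig_mul, sig_sig]
  rfl

end

end Pool.Agent.N309.PD
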